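import Mathlib
import Pool.Agent.R761.BipLat.Defs

/-! Labelled points and planes in the space `ℝ² × ℝ`, and certificates for memberships. -/

namespace R761.PosId

open R761.BipLat

/-- a labelled point with base coordinates `x, y` and height `h` -/
structure Pt where
  x : ℝ
  y : ℝ
  h : ℝ
  lab : ℕ → Bool

/-- the affine function `a x + b y + c` on the base -/
structure Pl where
  a : ℝ
  b : ℝ
  c : ℝ

/-- height of the point above the plane -/
def val (F : Pl) (p : Pt) : ℝ := p.h - (F.a * p.x + F.b * p.y + F.c)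

/-- boolean value of a lattice term -/
def bev (σ : ℕ → Bool) : LTerm → Bool
  | .var i => σ i
  | .sup s t => bev σ s || bev σ t
  | .inf s t => bev σ s && bev σ t

/-- `q` is the point `l y + (1 - l) z` for some `0 < l < 1` -/
def Btw (q y z : Pt) : Prop :=
  ∃ l : ℝ, 0 < l ∧ l < 1 ∧ q.x = l * y.x + (1 - l) * z.x ∧ q.y = l * y.y + (1 - l) * z.y ∧
    q.h = l * y.h + (1 - l) * z.h

/-- Certificates. `Dv P Fs true w q`: the point `q` lies in the open part of the value of `w`;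
`Dv P Fs false w q`: it lies outside the closed part. -/
inductive Dv (P : List Pt) (Fs : List Pl) : Bool → LTerm → Pt → Prop
  | leaf {q : Pt} {F : Pl} {β : Bool} (w : LTerm) : q ∈ P → F ∈ Fs → 0 < val F q →
      (∀ p ∈ P, p ≠ q → val F p < 0) → bev q.lab w = β → Dv P Fs β w q
  | supl {q : Pt} {s t : LTerm} : Dv P Fs true s q → Dv P Fs true (.sup s t) q
  | supr {q : Pt} {s t : LTerm} : Dv P Fs true t q → Dv P Fs true (.sup s t) q
  | infl {q : Pt} {s t : LTerm} : Dv P Fs false s q → Dv P Fs false (.inf s t) q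
  | infr {q : Pt} {s t : LTerm} : Dv P Fs false t q → Dv P Fs false (.inf s t) q
  | up {q y z y' z' : Pt} {F : Pl} {s t : LTerm} : q ∈ P → F ∈ Fs → 0 < val F q →
      (∀ p ∈ P, p ≠ q → 0 < val F p → Dv P Fs true (.inf s t) p) →
      Dv P Fs true s y → Dv P Fs true s z → Btw q y z →
      Dv P Fs true t y' → Dv P Fs true t z' → Btw q y' z' → Dv P Fs true (.inf s t) q
  | dn {q y z y' z' : Pt} {F : Pl} {s t : LTerm} : q ∈ P → F ∈ Fs → 0 < val F q →
      (∀ p ∈ P, p ≠ q → 0 < val F p → Dv P Fs false (.sup s t) p) →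
      Dv P Fs false s y → Dv P Fs false s z → Btw q y z →
      Dv P Fs false t y' → Dv P Fs false t z' → Btw q y' z' → Dv P Fs false (.sup s t) q

/-- A configuration separating `s` from `t`, with two port planes. -/
structure Str (s t : LTerm) where
  P : List Pt
  Fs : List Pl
  q : Pt
  Nb : Pl
  Nc : Pl
  nbx : ℝ
  nby : ℝ
  ncx : ℝ
  ncy : ℝ
  hq : q ∈ P
  gen : ∀ F ∈ Fs, ∀ p ∈ P, val F p ≠ 0
  genb : ∀ p ∈ P, val Nb p ≠ 0
  genc : ∀ p ∈ P, val Nc p ≠ 0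
  qb : 0 < val Nb q
  qc : 0 < val Nc q
  dvb : ∀ p ∈ P, 0 < val Nb p → Dv P Fs true s p
  dvc : ∀ p ∈ P, 0 < val Nc p → Dv P Fs false t p
  grb : ∀ F ∈ Fs, 0 < (F.a - Nb.a) * nbx + (F.b - Nb.b) * nby
  grc : ∀ F ∈ Fs, 0 < (F.a - Nc.a) * ncx + (F.b - Nc.b) * ncy

/-- A normalised half of a configuration: the port plane is `h = 0`. `β = true`: points above it
are in the open part of `w`; the root `q` also has the certificate `(!β, w')`. -/
structure Hf (P : List Pt) (Fs : List Pl) (q : Pt) (β : Bool) (w w' : LTerm) : Prop where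
  hq : q ∈ P
  gen : ∀ F ∈ Fs, ∀ p ∈ P, val F p ≠ 0
  genh : ∀ p ∈ P, p.h ≠ 0
  qh : 0 < q.h
  dv : ∀ p ∈ P, 0 < p.h → Dv P Fs β w p
  dq : Dv P Fs (!β) w' q

/-- admissible maps of points and planes -/
structure Adm (φ : Pt → Pt) (ψ : Pl → Pl) : Prop where
  inj : Function.Injective φ
  lab : ∀ p, (φ p).lab = p.lab
  btw : ∀ q y z, Btw q y z → Btw (φ q) (φ y) (φ z)
  sc : ∃ κ : ℝ, 0 < κ ∧ ∀ F p, val (ψ F) (φ p) = κ * val F p

/-- TRANS -/
def S_trans : Prop := ∀ (φ : Pt → Pt) (ψ : Pl → Pl), Adm φ ψ →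
  ∀ (P : List Pt) (Fs : List Pl) (β : Bool) (w : LTerm) (q : Pt),
    Dv P Fs β w q → Dv (P.map φ) (Fs.map ψ) β w (φ q)

/-- MERGE -/
def S_merge : Prop := ∀ (P P' : List Pt) (Fs Fs' : List Pl), P ⊆ P' → Fs ⊆ Fs' →
  (∀ p ∈ P', p ∉ P → ∀ F ∈ Fs, val F p < 0) →
  ∀ (β : Bool) (w : LTerm) (q : Pt), Dv P Fs β w q → Dv P' Fs' β w q

/-- NORM: normalisation of one half, with three prescribed directions `u, v, w` for the gradients
of the planes -/
def S_norm : Prop := ∀ (P : List Pt) (Fs : List Pl) (q : Pt) (N : Pl) (nx ny : ℝ)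
  (β : Bool) (w w' : LTerm), q ∈ P → (∀ F ∈ Fs, ∀ p ∈ P, val F p ≠ 0) →
  (∀ p ∈ P, val N p ≠ 0) → 0 < val N q → (∀ p ∈ P, 0 < val N p → Dv P Fs β w p) →
  Dv P Fs (!β) w' q → (∀ F ∈ Fs, 0 < (F.a - N.a) * nx + (F.b - N.b) * ny) →
  ∀ (αx αy u1 u2 v1 v2 w1 w2 : ℝ), 0 < αx * u1 + αy * u2 → 0 < αx * v1 + αy * v2 →
    0 < αx * w1 + αy * w2 →
  ∃ (P' : List Pt) (Fs' : List Pl) (q' : Pt), Hf P' Fs' q' β w w' ∧
    ∀ F ∈ Fs', 0 < F.a * u1 + F.b * u2 ∧ 0 < F.a * v1 + F.b * v2 ∧ 0 < F.a * w1 + F.b * w2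

/-- STEP -/
def S_step : Prop := ∀ s1 s2 t1 t2 : LTerm, Str (.inf s1 s2) t1 → Str (.inf s1 s2) t2 →
  Str s1 (.sup t1 t2) → Str s2 (.sup t1 t2) → Nonempty (Str (.inf s1 s2) (.sup t1 t2))

/-- IND -/
def S_ind : Prop := S_step → ∀ (L : Type) [Lattice L] (v : ℕ → L) (s t : LTerm),
  ¬ s.eval v ≤ t.eval v → Nonempty (Str s t)

end R761.PosId
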