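import Mathlib
import Pool.Agent.R761.PosId.Defs

/-! Sign conditions for small parameters. -/

namespace R761.PosId

open Filter Topology

theorem ev_neg (f G : ℝ → ℝ) (k : ℕ) (hf : ∀ e, f e = e ^ k * G e) (hG : Continuous G)
    (h0 : G 0 < 0) : ∀ᶠ e in 𝓝[>] (0 : ℝ), f e < 0 := by
  have h1 : ∀ᶠ e in 𝓝[>] (0 : ℝ), G e < 0 :=
    ((hG.tendsto 0).eventually_lt_const h0).filter_mono nhdsWithin_le_nhds
  filter_upwards [h1, self_mem_nhdsWithin] with e he hp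
  rw [hf]
  exact mul_neg_of_pos_of_neg (pow_pos hp k) he

theorem ev_pos (f G : ℝ → ℝ) (k : ℕ) (hf : ∀ e, f e = e ^ k * G e) (hG : Continuous G)
    (h0 : 0 < G 0) : ∀ᶠ e in 𝓝[>] (0 : ℝ), 0 < f e := by
  have h1 : ∀ᶠ e in 𝓝[>] (0 : ℝ), 0 < G e :=
    ((hG.tendsto 0).eventually_const_lt h0).filter_mono nhdsWithin_le_nhds
  filter_upwards [h1, self_mem_nhdsWithin] with e he hp
  rw [hf]
  exact mul_pos (pow_pos hp k) he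

def pl (e a1 a2 : ℝ) (p : Pt) : Pt :=
  ⟨a1 + e ^ 2 * p.x, a2 + e ^ 2 * p.y, (a1 + e ^ 2 * p.x) + e ^ 4 * p.h, p.lab⟩

def pF (e a1 a2 : ℝ) (F : Pl) : Pl :=
  ⟨1 + e ^ 2 * F.a, e ^ 2 * F.b, -(e ^ 2 * (F.a * a1 + F.b * a2)) + e ^ 4 * F.c⟩

def mp (p : Pt) : Pt := ⟨-p.x, p.y, p.h, p.lab⟩
def mF (F : Pl) : Pl := ⟨-F.a, F.b, F.c⟩

def q0 (e : ℝ) : Pt := ⟨0, 0, e ^ 8, fun _ => false⟩

def zz (e : ℝ) (l : ℕ → Bool) (p : Pt) : Pt :=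
  ⟨-(e ^ 3 * p.x), -(e ^ 3 * p.y), (1 + e ^ 3) * e ^ 8 - e ^ 3 * p.h, l⟩

def bq (e : ℝ) : Pl := ⟨1 - 2 * e ^ 9, e ^ 9, 0⟩
def vm (e w1 w2 v : ℝ) : Pl := ⟨1 + w1, w2, v * e ^ 3⟩
def Nb0 : Pl := ⟨1, 0, 0⟩

theorem val_mF (F : Pl) (p : Pt) : val (mF F) (mp p) = val F p := by
  simp only [val, mF, mp]; ring

theorem mp_mp (p : Pt) : mp (mp p) = p := by simp [mp]
theorem mF_mF (F : Pl) : mF (mF F) = F := by simp [mF]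
theorem val_mF' (F : Pl) (p : Pt) : val (mF F) p = val F (mp p) := by
  simp only [val, mF, mp]; ring

theorem val_pl (e a1 a2 : ℝ) (F : Pl) (p : Pt) :
    val (pF e a1 a2 F) (pl e a1 a2 p) = e ^ 4 * val F p := by
  simp only [val, pF, pl]; ring

theorem evA (a1 a2 b1 b2 : ℝ) (F : Pl) (p : Pt) (h : 0 < F.a * (b1 - a1) + F.b * (b2 - a2)) :
    ∀ᶠ e in 𝓝[>] (0 : ℝ), val (pF e a1 a2 F) (pl e b1 b2 p) < 0 := by
  refine ev_neg _ (fun e => e ^ 2 * p.h - (F.a * (b1 - a1 + e ^ 2 * p.x) +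
    F.b * (b2 - a2 + e ^ 2 * p.y)) - e ^ 2 * F.c) 2 (fun e => ?_) (by fun_prop) (by simp; linarith)
  simp only [val, pF, pl]; ring

theorem evB (a1 a2 : ℝ) (F : Pl) (h : 0 < F.a * (-a1) + F.b * (-a2)) :
    ∀ᶠ e in 𝓝[>] (0 : ℝ), val (pF e a1 a2 F) (q0 e) < 0 := by
  refine ev_neg _ (fun e => e ^ 6 + (F.a * a1 + F.b * a2) - e ^ 2 * F.c) 2 (fun e => ?_)
    (by fun_prop) (by simp; linarith)
  simp only [val, pF, q0]; ring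

theorem evC (a1 a2 b1 b2 : ℝ) (F : Pl) (p : Pt) (l : ℕ → Bool)
    (h : 0 < F.a * (-a1) + F.b * (-a2)) :
    ∀ᶠ e in 𝓝[>] (0 : ℝ), val (pF e a1 a2 F) (zz e l (pl e b1 b2 p)) < 0 := by
  refine ev_neg _ (fun e => (1 + e ^ 3) * e ^ 6 - e ^ 5 * p.h + F.a * (e ^ 3 * (b1 + e ^ 2 * p.x)) +
    F.b * (e ^ 3 * (b2 + e ^ 2 * p.y)) + (F.a * a1 + F.b * a2) - e ^ 2 * F.c) 2 (fun e => ?_)
    (by fun_prop) (by simp; linarith)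
  simp only [val, pF, pl, zz]; ring

theorem evD (a1 a2 b1 b2 : ℝ) (F : Pl) (p : Pt) (h : b1 < 0) :
    ∀ᶠ e in 𝓝[>] (0 : ℝ), val (pF e a1 a2 F) (mp (pl e b1 b2 p)) < 0 := by
  refine ev_neg _ (fun e => b1 + e ^ 2 * p.x + e ^ 4 * p.h + (1 + e ^ 2 * F.a) * (b1 + e ^ 2 * p.x)
    - e ^ 2 * F.b * (b2 + e ^ 2 * p.y) + e ^ 2 * (F.a * a1 + F.b * a2) - e ^ 4 * F.c) 0
    (fun e => ?_) (by fun_prop) (by simp; linarith)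
  simp only [val, pF, pl, mp]; ring

theorem evE (a1 a2 b1 b2 : ℝ) (F : Pl) (p : Pt) (l : ℕ → Bool)
    (h : 0 < F.a * (-a1) + F.b * (-a2)) :
    ∀ᶠ e in 𝓝[>] (0 : ℝ), val (pF e a1 a2 F) (mp (zz e l (pl e b1 b2 p))) < 0 := by
  refine ev_neg _ (fun e => (1 + e ^ 3) * e ^ 6 - e * (b1 + e ^ 2 * p.x + e ^ 4 * p.h) -
    (1 + e ^ 2 * F.a) * (e * (b1 + e ^ 2 * p.x)) + F.b * (e ^ 3 * (b2 + e ^ 2 * p.y)) +
    (F.a * a1 + F.b * a2) - e ^ 2 * F.c) 2 (fun e => ?_) (by fun_prop) (by simp; linarith)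
  simp only [val, pF, pl, zz, mp]; ring

theorem evF (b1 b2 : ℝ) (p : Pt) (h : 0 < p.h) :
    ∀ᶠ e in 𝓝[>] (0 : ℝ), 0 < val (bq e) (pl e b1 b2 p) := by
  refine ev_pos _ (fun e => p.h + 2 * e ^ 5 * (b1 + e ^ 2 * p.x) - e ^ 5 * (b2 + e ^ 2 * p.y)) 4
    (fun e => ?_) (by fun_prop) (by simpa using h)
  simp only [val, bq, pl]; ring

theorem evG (b1 b2 : ℝ) (p : Pt) (h : p.h < 0) :
    ∀ᶠ e in 𝓝[>] (0 : ℝ), val (bq e) (pl e b1 b2 p) < 0 := by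
  refine ev_neg _ (fun e => p.h + 2 * e ^ 5 * (b1 + e ^ 2 * p.x) - e ^ 5 * (b2 + e ^ 2 * p.y)) 4
    (fun e => ?_) (by fun_prop) (by simpa using h)
  simp only [val, bq, pl]; ring

theorem evH : ∀ᶠ e in 𝓝[>] (0 : ℝ), 0 < val (bq e) (q0 e) := by
  refine ev_pos _ (fun e => 1) 8 (fun e => ?_) (by fun_prop) (by norm_num)
  simp only [val, bq, q0]; ring

theorem evI (b1 b2 : ℝ) (p : Pt) (l : ℕ → Bool) (h : 0 < p.h) :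
    ∀ᶠ e in 𝓝[>] (0 : ℝ), val (bq e) (zz e l (pl e b1 b2 p)) < 0 := by
  refine ev_neg _ (fun e => (1 + e ^ 3) * e - p.h - 2 * e ^ 2 * (e ^ 3 * (b1 + e ^ 2 * p.x)) +
    e ^ 2 * (e ^ 3 * (b2 + e ^ 2 * p.y))) 7 (fun e => ?_) (by fun_prop) (by simp; linarith)
  simp only [val, bq, pl, zz]; ring

theorem evJ (b1 b2 : ℝ) (p : Pt) (h : b1 < 0) :
    ∀ᶠ e in 𝓝[>] (0 : ℝ), val (bq e) (mp (pl e b1 b2 p)) < 0 := by
  refine ev_neg _ (fun e => b1 + e ^ 2 * p.x + e ^ 4 * p.h + (1 - 2 * e ^ 9) * (b1 + e ^ 2 * p.x)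
    - e ^ 9 * (b2 + e ^ 2 * p.y)) 0
    (fun e => ?_) (by fun_prop) (by simp; linarith)
  simp only [val, bq, pl, mp]; ring

theorem evK (b1 b2 : ℝ) (p : Pt) (l : ℕ → Bool) (h : b1 < 0) :
    ∀ᶠ e in 𝓝[>] (0 : ℝ), 0 < val (bq e) (mp (zz e l (pl e b1 b2 p))) := by
  refine ev_pos _ (fun e => (1 + e ^ 3) * e ^ 5 - (b1 + e ^ 2 * p.x + e ^ 4 * p.h) -
    (1 - 2 * e ^ 9) * (b1 + e ^ 2 * p.x) + e ^ 9 * (b2 + e ^ 2 * p.y)) 3 (fun e => ?_)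
    (by fun_prop) (by simp; linarith)
  simp only [val, bq, pl, zz, mp]; ring

/-! the port plane -/

theorem evN1 (b1 b2 e : ℝ) (p : Pt) : val Nb0 (pl e b1 b2 p) = e ^ 4 * p.h := by
  simp only [val, Nb0, pl]; ring

theorem evN2 (e : ℝ) : val Nb0 (q0 e) = e ^ 8 := by
  simp only [val, Nb0, q0]; ring

theorem evN3 (b1 b2 : ℝ) (p : Pt) (l : ℕ → Bool) (h : 0 < p.h) :
    ∀ᶠ e in 𝓝[>] (0 : ℝ), val Nb0 (zz e l (pl e b1 b2 p)) < 0 := by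
  refine ev_neg _ (fun e => (1 + e ^ 3) * e - p.h) 7 (fun e => ?_) (by fun_prop)
    (by simp; linarith)
  simp only [val, Nb0, pl, zz]; ring

theorem evN4 (b1 b2 : ℝ) (p : Pt) (h : b1 < 0) :
    ∀ᶠ e in 𝓝[>] (0 : ℝ), val Nb0 (mp (pl e b1 b2 p)) < 0 := by
  refine ev_neg _ (fun e => b1 + e ^ 2 * p.x + e ^ 4 * p.h + (b1 + e ^ 2 * p.x)) 0
    (fun e => ?_) (by fun_prop) (by simp; linarith)
  simp only [val, Nb0, pl, mp]; ring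

theorem evN5 (b1 b2 : ℝ) (p : Pt) (l : ℕ → Bool) (h : b1 < 0) :
    ∀ᶠ e in 𝓝[>] (0 : ℝ), 0 < val Nb0 (mp (zz e l (pl e b1 b2 p))) := by
  refine ev_pos _ (fun e => (1 + e ^ 3) * e ^ 5 - (b1 + e ^ 2 * p.x + e ^ 4 * p.h) -
    (b1 + e ^ 2 * p.x)) 3 (fun e => ?_) (by fun_prop) (by simp; linarith)
  simp only [val, Nb0, pl, zz, mp]; ring

/-! the planes of the helper vertices -/

theorem evP (w1 w2 v b1 b2 : ℝ) (p : Pt) (h : 0 < w1 * b1 + w2 * b2) :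
    ∀ᶠ e in 𝓝[>] (0 : ℝ), val (vm e w1 w2 v) (pl e b1 b2 p) < 0 := by
  refine ev_neg _ (fun e => e ^ 4 * p.h - w1 * (b1 + e ^ 2 * p.x) - w2 * (b2 + e ^ 2 * p.y)
    - v * e ^ 3) 0 (fun e => ?_) (by fun_prop) (by simp; linarith)
  simp only [val, vm, pl]; ring

theorem evQ (w1 w2 v : ℝ) (h : 0 < v) :
    ∀ᶠ e in 𝓝[>] (0 : ℝ), val (vm e w1 w2 v) (q0 e) < 0 := by
  refine ev_neg _ (fun e => e ^ 5 - v) 3 (fun e => ?_) (by fun_prop) (by simp; linarith)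
  simp only [val, vm, q0]; ring

theorem evR (w1 w2 v b1 b2 : ℝ) (p : Pt) (l : ℕ → Bool) (h : v < w1 * b1 + w2 * b2) :
    ∀ᶠ e in 𝓝[>] (0 : ℝ), 0 < val (vm e w1 w2 v) (zz e l (pl e b1 b2 p)) := by
  refine ev_pos _ (fun e => (1 + e ^ 3) * e ^ 5 - e ^ 4 * p.h + w1 * (b1 + e ^ 2 * p.x) +
    w2 * (b2 + e ^ 2 * p.y) - v) 3 (fun e => ?_) (by fun_prop) (by simp; linarith)
  simp only [val, vm, pl, zz]; ring

theorem evS (w1 w2 v b1 b2 : ℝ) (p : Pt) (l : ℕ → Bool) (h : w1 * b1 + w2 * b2 < v) :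
    ∀ᶠ e in 𝓝[>] (0 : ℝ), val (vm e w1 w2 v) (zz e l (pl e b1 b2 p)) < 0 := by
  refine ev_neg _ (fun e => (1 + e ^ 3) * e ^ 5 - e ^ 4 * p.h + w1 * (b1 + e ^ 2 * p.x) +
    w2 * (b2 + e ^ 2 * p.y) - v) 3 (fun e => ?_) (by fun_prop) (by simp; linarith)
  simp only [val, vm, pl, zz]; ring

theorem evT (w1 w2 v b1 b2 : ℝ) (p : Pt) (h : 2 * b1 + w1 * b1 - w2 * b2 < 0) :
    ∀ᶠ e in 𝓝[>] (0 : ℝ), val (vm e w1 w2 v) (mp (pl e b1 b2 p)) < 0 := by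
  refine ev_neg _ (fun e => b1 + e ^ 2 * p.x + e ^ 4 * p.h + (1 + w1) * (b1 + e ^ 2 * p.x)
    - w2 * (b2 + e ^ 2 * p.y) - v * e ^ 3) 0 (fun e => ?_) (by fun_prop) (by simp; linarith)
  simp only [val, vm, pl, mp]; ring

theorem evU (w1 w2 v b1 b2 : ℝ) (p : Pt) (l : ℕ → Bool)
    (h : -(2 * b1) - w1 * b1 + w2 * b2 < v) :
    ∀ᶠ e in 𝓝[>] (0 : ℝ), val (vm e w1 w2 v) (mp (zz e l (pl e b1 b2 p))) < 0 := by
  refine ev_neg _ (fun e => (1 + e ^ 3) * e ^ 5 - (b1 + e ^ 2 * p.x + e ^ 4 * p.h) -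
    (1 + w1) * (b1 + e ^ 2 * p.x) + w2 * (b2 + e ^ 2 * p.y) - v) 3 (fun e => ?_)
    (by fun_prop) (by simp; linarith)
  simp only [val, vm, pl, zz, mp]; ring

end R761.PosId
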