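import Mathlib
import Pool.Agent.R761.PosId.Ev

/-! All sign conditions of the recursion step hold for small parameters. -/

namespace R761.PosId

open Filter Topology

theorem evl {α : Type*} {Q : ℝ → α → Prop} {f : Filter ℝ} :
    ∀ l : List α, (∀ a ∈ l, ∀ᶠ e in f, Q e a) → ∀ᶠ e in f, ∀ a ∈ l, Q e a
  | [], _ => by simp
  | a :: l, h => by
    have h1 := h a (by simp)
    have h2 := evl l (fun b hb => h b (by simp [hb]))
    filter_upwards [h1, h2] with e h3 h4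
    intro b hb
    rcases List.mem_cons.1 hb with rfl | hb
    · exact h3
    · exact h4 b hb

noncomputable abbrev p1 (e : ℝ) (p : Pt) : Pt := pl e (-3) 1 p
noncomputable abbrev p2 (e : ℝ) (p : Pt) : Pt := pl e (-1) (13 / 10) p
noncomputable abbrev f1 (e : ℝ) (F : Pl) : Pl := pF e (-3) 1 F
noncomputable abbrev f2 (e : ℝ) (F : Pl) : Pl := pF e (-1) (13 / 10) F
noncomputable abbrev v1 (e : ℝ) : Pl := vm e (-3) 10 (35 / 2)
noncomputable abbrev v2 (e : ℝ) : Pl := vm e (-5) 100 130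

/-- gradient conditions for the first cluster -/
def Gr1 (F : Pl) : Prop :=
  0 < F.a * 2 + F.b * (3 / 10) ∧ 0 < F.a * 3 + F.b * (-1) ∧ 0 < F.a * (-2) + F.b * 1
/-- gradient conditions for the second cluster -/
def Gr2 (F : Pl) : Prop :=
  0 < F.a * (-2) + F.b * (-3 / 10) ∧ 0 < F.a * 1 + F.b * (-13 / 10) ∧ 0 < F.a * (-2) + F.b * 1

/-- sign conditions of one plane against the objects common to both clusters -/
structure Com (e : ℝ) (l l' : ℕ → Bool) (F : Pl) (r1 r2 : Pt) (Q1 Q2 : List Pt) (s1 s2 : Pt) :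
    Prop where
  z1 : val F (zz e l (p1 e r1)) < 0
  z2 : val F (zz e l (p2 e r2)) < 0
  q : val F (q0 e) < 0
  m1 : ∀ p ∈ Q1, val F (mp (p1 e p)) < 0
  m2 : ∀ p ∈ Q2, val F (mp (p2 e p)) < 0
  y1 : val F (mp (zz e l' (p1 e s1))) < 0
  y2 : val F (mp (zz e l' (p2 e s2))) < 0

structure Good (e : ℝ) (l l' : ℕ → Bool) (P1 : List Pt) (F1 : List Pl) (r1 : Pt)
    (P2 : List Pt) (F2 : List Pl) (r2 : Pt) (Q1 Q2 : List Pt) (s1 s2 : Pt) : Prop where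
  a1 : ∀ F ∈ F1, ∀ p ∈ P2, val (f1 e F) (p2 e p) < 0
  c1 : ∀ F ∈ F1, Com e l l' (f1 e F) r1 r2 Q1 Q2 s1 s2
  a2 : ∀ F ∈ F2, ∀ p ∈ P1, val (f2 e F) (p1 e p) < 0
  c2 : ∀ F ∈ F2, Com e l l' (f2 e F) r1 r2 Q1 Q2 s1 s2
  b1 : ∀ p ∈ P1, (0 < p.h → 0 < val (bq e) (p1 e p)) ∧ (p.h < 0 → val (bq e) (p1 e p) < 0)
  b2 : ∀ p ∈ P2, (0 < p.h → 0 < val (bq e) (p2 e p)) ∧ (p.h < 0 → val (bq e) (p2 e p) < 0)
  bq' : 0 < val (bq e) (q0 e)
  bz1 : val (bq e) (zz e l (p1 e r1)) < 0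
  bz2 : val (bq e) (zz e l (p2 e r2)) < 0
  bm1 : ∀ p ∈ Q1, val (bq e) (mp (p1 e p)) < 0
  bm2 : ∀ p ∈ Q2, val (bq e) (mp (p2 e p)) < 0
  by1 : 0 < val (bq e) (mp (zz e l' (p1 e s1)))
  by2 : 0 < val (bq e) (mp (zz e l' (p2 e s2)))
  nz1 : val Nb0 (zz e l (p1 e r1)) < 0
  nz2 : val Nb0 (zz e l (p2 e r2)) < 0
  nm1 : ∀ p ∈ Q1, val Nb0 (mp (p1 e p)) < 0
  nm2 : ∀ p ∈ Q2, val Nb0 (mp (p2 e p)) < 0
  ny1 : 0 < val Nb0 (mp (zz e l' (p1 e s1)))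
  ny2 : 0 < val Nb0 (mp (zz e l' (p2 e s2)))
  v1p1 : ∀ p ∈ P1, val (v1 e) (p1 e p) < 0
  v1p2 : ∀ p ∈ P2, val (v1 e) (p2 e p) < 0
  v1z1 : 0 < val (v1 e) (zz e l (p1 e r1))
  v1z2 : val (v1 e) (zz e l (p2 e r2)) < 0
  v1q : val (v1 e) (q0 e) < 0
  v1m1 : ∀ p ∈ Q1, val (v1 e) (mp (p1 e p)) < 0
  v1m2 : ∀ p ∈ Q2, val (v1 e) (mp (p2 e p)) < 0
  v1y1 : val (v1 e) (mp (zz e l' (p1 e s1))) < 0
  v1y2 : val (v1 e) (mp (zz e l' (p2 e s2))) < 0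
  v2p1 : ∀ p ∈ P1, val (v2 e) (p1 e p) < 0
  v2p2 : ∀ p ∈ P2, val (v2 e) (p2 e p) < 0
  v2z1 : val (v2 e) (zz e l (p1 e r1)) < 0
  v2z2 : 0 < val (v2 e) (zz e l (p2 e r2))
  v2q : val (v2 e) (q0 e) < 0
  v2m1 : ∀ p ∈ Q1, val (v2 e) (mp (p1 e p)) < 0
  v2m2 : ∀ p ∈ Q2, val (v2 e) (mp (p2 e p)) < 0
  v2y1 : val (v2 e) (mp (zz e l' (p1 e s1))) < 0
  v2y2 : val (v2 e) (mp (zz e l' (p2 e s2))) < 0

theorem com1 (l l' : ℕ → Bool) (F : Pl) (hF : Gr1 F) (r1 r2 : Pt) (Q1 Q2 : List Pt)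
    (s1 s2 : Pt) : ∀ᶠ e in 𝓝[>] (0 : ℝ), Com e l l' (f1 e F) r1 r2 Q1 Q2 s1 s2 := by
  have h : 0 < F.a * (-(-3 : ℝ)) + F.b * (-1) := by have := hF.2.1; linarith
  filter_upwards [evC (-3) 1 (-3) 1 F r1 l h, evC (-3) 1 (-1) (13 / 10) F r2 l h,
    evB (-3) 1 F h, evl Q1 (fun p _ => evD (-3) 1 (-3) 1 F p (by norm_num)),
    evl Q2 (fun p _ => evD (-3) 1 (-1) (13 / 10) F p (by norm_num)),
    evE (-3) 1 (-3) 1 F s1 l' h, evE (-3) 1 (-1) (13 / 10) F s2 l' h] with e h1 h2 h3 h4 h5 h6 h7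
  exact ⟨h1, h2, h3, h4, h5, h6, h7⟩

theorem com2 (l l' : ℕ → Bool) (F : Pl) (hF : Gr2 F) (r1 r2 : Pt) (Q1 Q2 : List Pt)
    (s1 s2 : Pt) : ∀ᶠ e in 𝓝[>] (0 : ℝ), Com e l l' (f2 e F) r1 r2 Q1 Q2 s1 s2 := by
  have h : 0 < F.a * (-(-1 : ℝ)) + F.b * (-(13 / 10)) := by have := hF.2.1; linarith
  filter_upwards [evC (-1) (13 / 10) (-3) 1 F r1 l h, evC (-1) (13 / 10) (-1) (13 / 10) F r2 l h,
    evB (-1) (13 / 10) F h, evl Q1 (fun p _ => evD (-1) (13 / 10) (-3) 1 F p (by norm_num)),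
    evl Q2 (fun p _ => evD (-1) (13 / 10) (-1) (13 / 10) F p (by norm_num)),
    evE (-1) (13 / 10) (-3) 1 F s1 l' h, evE (-1) (13 / 10) (-1) (13 / 10) F s2 l' h]
    with e h1 h2 h3 h4 h5 h6 h7
  exact ⟨h1, h2, h3, h4, h5, h6, h7⟩

theorem good (l l' : ℕ → Bool) (P1 : List Pt) (F1 : List Pl) (r1 : Pt)
    (P2 : List Pt) (F2 : List Pl) (r2 : Pt) (Q1 Q2 : List Pt) (s1 s2 : Pt)
    (g1 : ∀ F ∈ F1, Gr1 F) (g2 : ∀ F ∈ F2, Gr2 F) (hr1 : 0 < r1.h) (hr2 : 0 < r2.h) :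
    ∀ᶠ e in 𝓝[>] (0 : ℝ), Good e l l' P1 F1 r1 P2 F2 r2 Q1 Q2 s1 s2 := by
  have a1 : ∀ᶠ e in 𝓝[>] (0 : ℝ), ∀ F ∈ F1, ∀ p ∈ P2, val (f1 e F) (p2 e p) < 0 :=
    evl F1 fun F hF => evl P2 fun p _ => evA _ _ _ _ F p (by have := (g1 F hF).1; linarith)
  have a2 : ∀ᶠ e in 𝓝[>] (0 : ℝ), ∀ F ∈ F2, ∀ p ∈ P1, val (f2 e F) (p1 e p) < 0 :=
    evl F2 fun F hF => evl P1 fun p _ => evA _ _ _ _ F p (by have := (g2 F hF).1; linarith)
  have c1 := evl F1 fun F hF => com1 l l' F (g1 F hF) r1 r2 Q1 Q2 s1 s2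
  have c2 := evl F2 fun F hF => com2 l l' F (g2 F hF) r1 r2 Q1 Q2 s1 s2
  have b1 : ∀ᶠ e in 𝓝[>] (0 : ℝ), ∀ p ∈ P1,
      (0 < p.h → 0 < val (bq e) (p1 e p)) ∧ (p.h < 0 → val (bq e) (p1 e p) < 0) := by
    refine evl P1 fun p _ => ?_
    rcases lt_trichotomy p.h 0 with h | h | h
    · filter_upwards [evG (-3) 1 p h] with e he
      exact ⟨fun h' => absurd h' (by linarith), fun _ => he⟩
    · filter_upwards with e
      exact ⟨fun h' => absurd h' (by linarith), fun h' => absurd h' (by linarith)⟩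
    · filter_upwards [evF (-3) 1 p h] with e he
      exact ⟨fun _ => he, fun h' => absurd h' (by linarith)⟩
  have b2 : ∀ᶠ e in 𝓝[>] (0 : ℝ), ∀ p ∈ P2,
      (0 < p.h → 0 < val (bq e) (p2 e p)) ∧ (p.h < 0 → val (bq e) (p2 e p) < 0) := by
    refine evl P2 fun p _ => ?_
    rcases lt_trichotomy p.h 0 with h | h | h
    · filter_upwards [evG (-1) (13 / 10) p h] with e he
      exact ⟨fun h' => absurd h' (by linarith), fun _ => he⟩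
    · filter_upwards with e
      exact ⟨fun h' => absurd h' (by linarith), fun h' => absurd h' (by linarith)⟩
    · filter_upwards [evF (-1) (13 / 10) p h] with e he
      exact ⟨fun _ => he, fun h' => absurd h' (by linarith)⟩
  have k1 := evH
  have k2 := evI (-3) 1 r1 l hr1
  have k3 := evI (-1) (13 / 10) r2 l hr2
  have k4 := evl Q1 (fun p _ => evJ (-3) 1 p (by norm_num))
  have k5 := evl Q2 (fun p _ => evJ (-1) (13 / 10) p (by norm_num))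
  have k6 := evK (-3) 1 s1 l' (by norm_num)
  have k7 := evK (-1) (13 / 10) s2 l' (by norm_num)
  have n2 := evN3 (-3) 1 r1 l hr1
  have n3 := evN3 (-1) (13 / 10) r2 l hr2
  have n4 := evl Q1 (fun p _ => evN4 (-3) 1 p (by norm_num))
  have n5 := evl Q2 (fun p _ => evN4 (-1) (13 / 10) p (by norm_num))
  have n6 := evN5 (-3) 1 s1 l' (by norm_num)
  have n7 := evN5 (-1) (13 / 10) s2 l' (by norm_num)
  have u1 := evl P1 (fun p _ => evP (-3) 10 (35 / 2) (-3) 1 p (by norm_num))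
  have u2 := evl P2 (fun p _ => evP (-3) 10 (35 / 2) (-1) (13 / 10) p (by norm_num))
  have u3 := evR (-3) 10 (35 / 2) (-3) 1 r1 l (by norm_num)
  have u4 := evS (-3) 10 (35 / 2) (-1) (13 / 10) r2 l (by norm_num)
  have u5 := evQ (-3) 10 (35 / 2) (by norm_num)
  have u6 := evl Q1 (fun p _ => evT (-3) 10 (35 / 2) (-3) 1 p (by norm_num))
  have u7 := evl Q2 (fun p _ => evT (-3) 10 (35 / 2) (-1) (13 / 10) p (by norm_num))
  have u8 := evU (-3) 10 (35 / 2) (-3) 1 s1 l' (by norm_num)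
  have u9 := evU (-3) 10 (35 / 2) (-1) (13 / 10) s2 l' (by norm_num)
  have w1 := evl P1 (fun p _ => evP (-5) 100 130 (-3) 1 p (by norm_num))
  have w2 := evl P2 (fun p _ => evP (-5) 100 130 (-1) (13 / 10) p (by norm_num))
  have w3 := evS (-5) 100 130 (-3) 1 r1 l (by norm_num)
  have w4 := evR (-5) 100 130 (-1) (13 / 10) r2 l (by norm_num)
  have w5 := evQ (-5) 100 130 (by norm_num)
  have w6 := evl Q1 (fun p _ => evT (-5) 100 130 (-3) 1 p (by norm_num))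
  have w7 := evl Q2 (fun p _ => evT (-5) 100 130 (-1) (13 / 10) p (by norm_num))
  have w8 := evU (-5) 100 130 (-3) 1 s1 l' (by norm_num)
  have w9 := evU (-5) 100 130 (-1) (13 / 10) s2 l' (by norm_num)
  filter_upwards [a1, c1, a2, c2, b1, b2, k1, k2, k3, k4, k5, k6, k7, n2, n3, n4, n5, n6, n7,
    u1, u2, u3, u4, u5, u6, u7, u8, u9, w1, w2, w3, w4, w5, w6, w7, w8, w9] with e
    a1 c1 a2 c2 b1 b2 k1 k2 k3 k4 k5 k6 k7 n2 n3 n4 n5 n6 n7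
    u1 u2 u3 u4 u5 u6 u7 u8 u9 w1 w2 w3 w4 w5 w6 w7 w8 w9
  exact ⟨a1, c1, a2, c2, b1, b2, k1, k2, k3, k4, k5, k6, k7, n2, n3, n4, n5, n6, n7,
    u1, u2, u3, u4, u5, u6, u7, u8, u9, w1, w2, w3, w4, w5, w6, w7, w8, w9⟩

end R761.PosId
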