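import Mathlib
import Pool.Agent.R761.PosId.Good

/-! One half of the recursion step. -/

namespace R761.PosId

open Filter Topology

noncomputable def UU (e : ℝ) (l : ℕ → Bool) (P1 : List Pt) (r1 : Pt) (P2 : List Pt) (r2 : Pt) :
    List Pt :=
  P1.map (p1 e) ++ P2.map (p2 e) ++ [zz e l (p1 e r1), zz e l (p2 e r2)]

noncomputable def GG (e : ℝ) (F1 F2 : List Pl) : List Pl :=
  F1.map (f1 e) ++ F2.map (f2 e) ++ [bq e, v1 e, v2 e]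

/-- membership in the big configuration -/
def PP (e : ℝ) (l l' : ℕ → Bool) (P1 : List Pt) (r1 : Pt) (P2 : List Pt) (r2 : Pt)
    (Q1 : List Pt) (s1 : Pt) (Q2 : List Pt) (s2 : Pt) (p : Pt) : Prop :=
  p ∈ UU e l P1 r1 P2 r2 ∨ p = q0 e ∨ ∃ p' ∈ UU e l' Q1 s1 Q2 s2, p = mp p'

theorem mp_q0 (e : ℝ) : mp (q0 e) = q0 e := by simp [mp, q0]

theorem PP_symm {e : ℝ} {l l' : ℕ → Bool} {P1 : List Pt} {r1 : Pt} {P2 : List Pt} {r2 : Pt}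
    {Q1 : List Pt} {s1 : Pt} {Q2 : List Pt} {s2 : Pt} {p : Pt}
    (h : PP e l l' P1 r1 P2 r2 Q1 s1 Q2 s2 p) : PP e l' l Q1 s1 Q2 s2 P1 r1 P2 r2 (mp p) := by
  rcases h with h | h | ⟨p', h, rfl⟩
  · exact Or.inr (Or.inr ⟨p, h, rfl⟩)
  · exact Or.inr (Or.inl (by rw [h, mp_q0]))
  · exact Or.inl (by rw [mp_mp]; exact h)

theorem mem_UU {e : ℝ} {l : ℕ → Bool} {P1 : List Pt} {r1 : Pt} {P2 : List Pt} {r2 p : Pt} :
    p ∈ UU e l P1 r1 P2 r2 ↔ (∃ p' ∈ P1, p1 e p' = p) ∨ (∃ p' ∈ P2, p2 e p' = p) ∨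
      p = zz e l (p1 e r1) ∨ p = zz e l (p2 e r2) := by
  simp [UU, or_assoc]

section half

variable {e : ℝ} {l l' : ℕ → Bool} {P1 : List Pt} {F1 : List Pl} {r1 : Pt}
  {P2 : List Pt} {F2 : List Pl} {r2 : Pt} {Q1 Q2 : List Pt} {s1 s2 : Pt}

theorem S1 (g : Good e l l' P1 F1 r1 P2 F2 r2 Q1 Q2 s1 s2) {F : Pl} (hF : F ∈ F1) {p : Pt}
    (hp : PP e l l' P1 r1 P2 r2 Q1 s1 Q2 s2 p) :
    (∃ p' ∈ P1, p1 e p' = p) ∨ val (f1 e F) p < 0 := by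
  have c := g.c1 F hF
  rcases hp with h | h | ⟨p', h, rfl⟩
  · rcases mem_UU.1 h with h | ⟨p', hm, rfl⟩ | h | h
    · exact Or.inl h
    · exact Or.inr (g.a1 F hF p' hm)
    · rw [h]; exact Or.inr c.z1
    · rw [h]; exact Or.inr c.z2
  · rw [h]; exact Or.inr c.q
  · rcases mem_UU.1 h with ⟨p', hm, rfl⟩ | ⟨p', hm, rfl⟩ | h | h
    · exact Or.inr (c.m1 p' hm)
    · exact Or.inr (c.m2 p' hm)
    · rw [h]; exact Or.inr c.y1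
    · rw [h]; exact Or.inr c.y2

theorem S2 (g : Good e l l' P1 F1 r1 P2 F2 r2 Q1 Q2 s1 s2) {F : Pl} (hF : F ∈ F2) {p : Pt}
    (hp : PP e l l' P1 r1 P2 r2 Q1 s1 Q2 s2 p) :
    (∃ p' ∈ P2, p2 e p' = p) ∨ val (f2 e F) p < 0 := by
  have c := g.c2 F hF
  rcases hp with h | h | ⟨p', h, rfl⟩
  · rcases mem_UU.1 h with ⟨p', hm, rfl⟩ | h | h | h
    · exact Or.inr (g.a2 F hF p' hm)
    · exact Or.inl h
    · rw [h]; exact Or.inr c.z1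
    · rw [h]; exact Or.inr c.z2
  · rw [h]; exact Or.inr c.q
  · rcases mem_UU.1 h with ⟨p', hm, rfl⟩ | ⟨p', hm, rfl⟩ | h | h
    · exact Or.inr (c.m1 p' hm)
    · exact Or.inr (c.m2 p' hm)
    · rw [h]; exact Or.inr c.y1
    · rw [h]; exact Or.inr c.y2

/-- the sign of `bq` -/
theorem Sbq (g : Good e l l' P1 F1 r1 P2 F2 r2 Q1 Q2 s1 s2) {p : Pt}
    (hp : PP e l l' P1 r1 P2 r2 Q1 s1 Q2 s2 p) (k1 : ∀ p ∈ P1, p.h ≠ 0) (k2 : ∀ p ∈ P2, p.h ≠ 0) :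
    (0 < val (bq e) p ∧ ((∃ p' ∈ P1, 0 < p'.h ∧ p1 e p' = p) ∨ (∃ p' ∈ P2, 0 < p'.h ∧ p2 e p' = p) ∨
      p = q0 e ∨ p = mp (zz e l' (p1 e s1)) ∨ p = mp (zz e l' (p2 e s2)))) ∨
      val (bq e) p < 0 := by
  rcases hp with h | h | ⟨p', h, rfl⟩
  · rcases mem_UU.1 h with ⟨p', hm, rfl⟩ | ⟨p', hm, rfl⟩ | h | h
    · rcases lt_or_gt_of_ne (k1 p' hm) with h1 | h1
      · exact Or.inr ((g.b1 p' hm).2 h1)
      · exact Or.inl ⟨(g.b1 p' hm).1 h1, Or.inl ⟨p', hm, h1, rfl⟩⟩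
    · rcases lt_or_gt_of_ne (k2 p' hm) with h1 | h1
      · exact Or.inr ((g.b2 p' hm).2 h1)
      · exact Or.inl ⟨(g.b2 p' hm).1 h1, Or.inr (Or.inl ⟨p', hm, h1, rfl⟩)⟩
    · rw [h]; exact Or.inr g.bz1
    · rw [h]; exact Or.inr g.bz2
  · rw [h]; exact Or.inl ⟨g.bq', Or.inr (Or.inr (Or.inl rfl))⟩
  · rcases mem_UU.1 h with ⟨p', hm, rfl⟩ | ⟨p', hm, rfl⟩ | h | h
    · exact Or.inr (g.bm1 p' hm)
    · exact Or.inr (g.bm2 p' hm)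
    · rw [h]; exact Or.inl ⟨g.by1, by simp⟩
    · rw [h]; exact Or.inl ⟨g.by2, by simp⟩

/-- the sign of `Nb0` -/
theorem SN (he : 0 < e) (g : Good e l l' P1 F1 r1 P2 F2 r2 Q1 Q2 s1 s2) {p : Pt}
    (hp : PP e l l' P1 r1 P2 r2 Q1 s1 Q2 s2 p) (k1 : ∀ p ∈ P1, p.h ≠ 0) (k2 : ∀ p ∈ P2, p.h ≠ 0) :
    (0 < val Nb0 p ∧ ((∃ p' ∈ P1, 0 < p'.h ∧ p1 e p' = p) ∨ (∃ p' ∈ P2, 0 < p'.h ∧ p2 e p' = p) ∨
      p = q0 e ∨ p = mp (zz e l' (p1 e s1)) ∨ p = mp (zz e l' (p2 e s2)))) ∨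
      val Nb0 p < 0 := by
  have e4 : 0 < e ^ 4 := pow_pos he 4
  rcases hp with h | h | ⟨p', h, rfl⟩
  · rcases mem_UU.1 h with ⟨p', hm, rfl⟩ | ⟨p', hm, rfl⟩ | h | h
    · have hv : val Nb0 (p1 e p') = e ^ 4 * p'.h := evN1 _ _ _ _
      rcases lt_or_gt_of_ne (k1 p' hm) with h1 | h1
      · exact Or.inr (by rw [hv]; exact mul_neg_of_pos_of_neg e4 h1)
      · exact Or.inl ⟨by rw [hv]; exact mul_pos e4 h1, Or.inl ⟨p', hm, h1, rfl⟩⟩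
    · have hv : val Nb0 (p2 e p') = e ^ 4 * p'.h := evN1 _ _ _ _
      rcases lt_or_gt_of_ne (k2 p' hm) with h1 | h1
      · exact Or.inr (by rw [hv]; exact mul_neg_of_pos_of_neg e4 h1)
      · exact Or.inl ⟨by rw [hv]; exact mul_pos e4 h1, Or.inr (Or.inl ⟨p', hm, h1, rfl⟩)⟩
    · rw [h]; exact Or.inr g.nz1
    · rw [h]; exact Or.inr g.nz2
  · rw [h]
    exact Or.inl ⟨by rw [evN2]; exact pow_pos he 8, Or.inr (Or.inr (Or.inl rfl))⟩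
  · rcases mem_UU.1 h with ⟨p', hm, rfl⟩ | ⟨p', hm, rfl⟩ | h | h
    · exact Or.inr (g.nm1 p' hm)
    · exact Or.inr (g.nm2 p' hm)
    · rw [h]; exact Or.inl ⟨g.ny1, by simp⟩
    · rw [h]; exact Or.inl ⟨g.ny2, by simp⟩

theorem Sv1 (g : Good e l l' P1 F1 r1 P2 F2 r2 Q1 Q2 s1 s2) {p : Pt}
    (hp : PP e l l' P1 r1 P2 r2 Q1 s1 Q2 s2 p) :
    p = zz e l (p1 e r1) ∨ val (v1 e) p < 0 := by
  rcases hp with h | h | ⟨p', h, rfl⟩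
  · rcases mem_UU.1 h with ⟨p', hm, rfl⟩ | ⟨p', hm, rfl⟩ | h | h
    · exact Or.inr (g.v1p1 p' hm)
    · exact Or.inr (g.v1p2 p' hm)
    · exact Or.inl h
    · rw [h]; exact Or.inr g.v1z2
  · rw [h]; exact Or.inr g.v1q
  · rcases mem_UU.1 h with ⟨p', hm, rfl⟩ | ⟨p', hm, rfl⟩ | h | h
    · exact Or.inr (g.v1m1 p' hm)
    · exact Or.inr (g.v1m2 p' hm)
    · rw [h]; exact Or.inr g.v1y1
    · rw [h]; exact Or.inr g.v1y2

theorem Sv2 (g : Good e l l' P1 F1 r1 P2 F2 r2 Q1 Q2 s1 s2) {p : Pt}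
    (hp : PP e l l' P1 r1 P2 r2 Q1 s1 Q2 s2 p) :
    p = zz e l (p2 e r2) ∨ val (v2 e) p < 0 := by
  rcases hp with h | h | ⟨p', h, rfl⟩
  · rcases mem_UU.1 h with ⟨p', hm, rfl⟩ | ⟨p', hm, rfl⟩ | h | h
    · exact Or.inr (g.v2p1 p' hm)
    · exact Or.inr (g.v2p2 p' hm)
    · rw [h]; exact Or.inr g.v2z1
    · exact Or.inl h
  · rw [h]; exact Or.inr g.v2q
  · rcases mem_UU.1 h with ⟨p', hm, rfl⟩ | ⟨p', hm, rfl⟩ | h | h
    · exact Or.inr (g.v2m1 p' hm)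
    · exact Or.inr (g.v2m2 p' hm)
    · rw [h]; exact Or.inr g.v2y1
    · rw [h]; exact Or.inr g.v2y2

/-- genericity of the planes of one half -/
theorem SG (he : 0 < e) (g : Good e l l' P1 F1 r1 P2 F2 r2 Q1 Q2 s1 s2) {p : Pt}
    (hp : PP e l l' P1 r1 P2 r2 Q1 s1 Q2 s2 p) (k1 : ∀ p ∈ P1, p.h ≠ 0) (k2 : ∀ p ∈ P2, p.h ≠ 0)
    (n1 : ∀ F ∈ F1, ∀ p ∈ P1, val F p ≠ 0) (n2 : ∀ F ∈ F2, ∀ p ∈ P2, val F p ≠ 0)
    {F : Pl} (hF : F ∈ GG e F1 F2) : val F p ≠ 0 := by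
  have e4 : e ^ 4 ≠ 0 := (pow_pos he 4).ne'
  have hF' : (∃ F' ∈ F1, f1 e F' = F) ∨ (∃ F' ∈ F2, f2 e F' = F) ∨ F = bq e ∨ F = v1 e ∨
      F = v2 e := by
    simpa [GG, or_assoc] using hF
  rcases hF' with ⟨F', h, rfl⟩ | ⟨F', h, rfl⟩ | h | h | h
  · rcases S1 g h hp with ⟨p', hp', rfl⟩ | h'
    · rw [show val (f1 e F') (p1 e p') = e ^ 4 * val F' p' from val_pl _ _ _ _ _]
      exact mul_ne_zero e4 (n1 F' h p' hp')
    · exact h'.ne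
  · rcases S2 g h hp with ⟨p', hp', rfl⟩ | h'
    · rw [show val (f2 e F') (p2 e p') = e ^ 4 * val F' p' from val_pl _ _ _ _ _]
      exact mul_ne_zero e4 (n2 F' h p' hp')
    · exact h'.ne
  · rw [h]
    rcases Sbq g hp k1 k2 with h' | h'
    · exact h'.1.ne'
    · exact h'.ne
  · rw [h]
    rcases Sv1 g hp with h' | h'
    · rw [h']; exact g.v1z1.ne'
    · exact h'.ne
  · rw [h]
    rcases Sv2 g hp with h' | h'
    · rw [h']; exact g.v2z2.ne'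
    · exact h'.ne

end half

theorem btw_zz (e : ℝ) (he : 0 < e) (l : ℕ → Bool) (p : Pt) : Btw (q0 e) p (zz e l p) := by
  have h3 : 0 < e ^ 3 := pow_pos he 3
  have h1 : (1 + e ^ 3) ≠ 0 := by positivity
  refine ⟨e ^ 3 / (1 + e ^ 3), by positivity, ?_, ?_, ?_, ?_⟩
  · rw [div_lt_one (by positivity)]; linarith
  · simp only [q0, zz]; field_simp; ring
  · simp only [q0, zz]; field_simp; ring
  · simp only [q0, zz]; field_simp; ring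

theorem btw_mp {q y z : Pt} (h : Btw q y z) : Btw (mp q) (mp y) (mp z) := by
  obtain ⟨t, h0, h1, hx, hy, hh⟩ := h
  refine ⟨t, h0, h1, ?_, hy, hh⟩
  simp only [mp]; rw [hx]; ring

theorem adm_pl (e a1 a2 : ℝ) (he : 0 < e) : Adm (pl e a1 a2) (pF e a1 a2) where
  inj p q h := by
    have e2 : e ^ 2 ≠ 0 := (pow_pos he 2).ne'
    have e4 : e ^ 4 ≠ 0 := (pow_pos he 4).ne'
    simp only [pl, Pt.mk.injEq] at h
    obtain ⟨h1, h2, h3, h4⟩ := h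
    have hx : p.x = q.x := mul_left_cancel₀ e2 (by linarith)
    have hy : p.y = q.y := mul_left_cancel₀ e2 (by linarith)
    have hh : p.h = q.h := mul_left_cancel₀ e4 (by rw [hx] at h3; linarith)
    cases p; cases q; simp_all
  lab p := rfl
  btw q y z h := by
    obtain ⟨t, h0, h1, hx, hy, hh⟩ := h
    refine ⟨t, h0, h1, ?_, ?_, ?_⟩
    · simp only [pl]; rw [hx]; ring
    · simp only [pl]; rw [hy]; ring
    · simp only [pl]; rw [hx, hh]; ring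
  sc := ⟨e ^ 4, pow_pos he 4, fun F p => val_pl e a1 a2 F p⟩

theorem adm_mp {φ : Pt → Pt} {ψ : Pl → Pl} (h : Adm φ ψ) :
    Adm (fun p => mp (φ p)) (fun F => mF (ψ F)) where
  inj p q hpq := h.inj (by
    have := congrArg mp hpq
    simpa [mp_mp] using this)
  lab p := by simp only [mp]; exact h.lab p
  btw q y z hb := btw_mp (h.btw q y z hb)
  sc := by
    obtain ⟨κ, hκ, hs⟩ := h.sc
    exact ⟨κ, hκ, fun F p => by rw [val_mF, hs]⟩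

end R761.PosId
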