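import Mathlib
import Pool.Agent.R761.PosId.Defs

/-! PI-IND: induction on terms. -/

namespace R761.PosId

open R761.BipLat

namespace IndAux

/-- size of a term -/
def sz : LTerm → ℕ
  | .var _ => 1
  | .sup s t => sz s + sz t + 1
  | .inf s t => sz s + sz t + 1

theorem base (s t : LTerm) (lab : ℕ → Bool) (hs : bev lab s = true) (ht : bev lab t = false) :
    Nonempty (Str s t) := by
  have hval : ∀ F : Pl, ∀ l : ℕ → Bool, val F ⟨0, 0, 1, l⟩ = 1 - F.c := by
    intro F l
    simp [val]
  refine ⟨{
    P := [⟨0, 0, 1, lab⟩]
    Fs := [⟨0, 0, 0⟩]
    q := ⟨0, 0, 1, lab⟩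
    Nb := ⟨-1, 0, 0⟩
    Nc := ⟨-1, 0, 0⟩
    nbx := 1
    nby := 0
    ncx := 1
    ncy := 0
    hq := List.mem_singleton.mpr rfl
    gen := ?_
    genb := ?_
    genc := ?_
    qb := ?_
    qc := ?_
    dvb := ?_
    dvc := ?_
    grb := ?_
    grc := ?_ }⟩
  · intro F hF p hp
    rw [List.mem_singleton] at hF hp
    subst hF hp
    rw [hval]; norm_num
  · intro p hp
    rw [List.mem_singleton] at hp
    subst hp
    rw [hval]; norm_num
  · intro p hp
    rw [List.mem_singleton] at hp
    subst hp
    rw [hval]; norm_num
  · rw [hval]; norm_num
  · rw [hval]; norm_num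
  · intro p hp _
    rw [List.mem_singleton] at hp
    subst hp
    refine Dv.leaf (F := ⟨0, 0, 0⟩) s (List.mem_singleton.mpr rfl) (List.mem_singleton.mpr rfl) ?_ ?_ hs
    · rw [hval]; norm_num
    · intro p hp hne
      rw [List.mem_singleton] at hp
      exact absurd hp hne
  · intro p hp _
    rw [List.mem_singleton] at hp
    subst hp
    refine Dv.leaf (F := ⟨0, 0, 0⟩) t (List.mem_singleton.mpr rfl) (List.mem_singleton.mpr rfl) ?_ ?_ ht
    · rw [hval]; norm_num
    · intro p hp hne
      rw [List.mem_singleton] at hp
      exact absurd hp hne
  · intro F hF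
    rw [List.mem_singleton] at hF
    subst hF
    norm_num
  · intro F hF
    rw [List.mem_singleton] at hF
    subst hF
    norm_num

theorem low {L : Type} [Lattice L] (v : ℕ → L) (x : ℕ) (w : LTerm)
    (h : bev (fun i => decide (i ≠ x)) w = false) : w.eval v ≤ v x := by
  induction w with
  | var i =>
    simp only [bev, decide_eq_false_iff_not, not_not] at h
    subst h
    exact le_refl _
  | sup a b iha ihb =>
    simp only [bev, Bool.or_eq_false_iff] at h
    simp only [LTerm.eval]
    exact sup_le (iha h.1) (ihb h.2)
  | inf a b iha ihb =>
    simp only [bev, Bool.and_eq_false_iff] at h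
    simp only [LTerm.eval]
    rcases h with h | h
    · exact inf_le_left.trans (iha h)
    · exact inf_le_right.trans (ihb h)

theorem high {L : Type} [Lattice L] (v : ℕ → L) (x : ℕ) (w : LTerm)
    (h : bev (fun i => decide (i = x)) w = true) : v x ≤ w.eval v := by
  induction w with
  | var i =>
    simp only [bev, decide_eq_true_eq] at h
    subst h
    exact le_refl _
  | sup a b iha ihb =>
    simp only [bev, Bool.or_eq_true] at h
    simp only [LTerm.eval]
    rcases h with h | h
    · exact (iha h).trans le_sup_left
    · exact (ihb h).trans le_sup_right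
  | inf a b iha ihb =>
    simp only [bev, Bool.and_eq_true] at h
    simp only [LTerm.eval]
    exact le_inf (iha h.1) (ihb h.2)

theorem main (hstep : S_step) (L : Type) [Lattice L] (v : ℕ → L) : ∀ (n : ℕ) (s t : LTerm),
    sz s + sz t ≤ n → ¬ s.eval v ≤ t.eval v → Nonempty (Str s t) := by
  intro n
  induction n with
  | zero =>
    intro s t h _
    exfalso
    cases s <;> simp [sz] at h
  | succ n ih =>
    intro s t hn hst
    cases s with
    | sup s1 s2 =>
      have h1 : ¬ s1.eval v ≤ t.eval v ∨ ¬ s2.eval v ≤ t.eval v := by
        by_contra hcon
        push Not at hcon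
        exact hst (sup_le hcon.1 hcon.2)
      simp only [sz] at hn
      rcases h1 with h1 | h1
      · obtain ⟨A⟩ := ih s1 t (by omega) h1
        exact ⟨{
          P := A.P
          Fs := A.Fs
          q := A.q
          Nb := A.Nb
          Nc := A.Nc
          nbx := A.nbx
          nby := A.nby
          ncx := A.ncx
          ncy := A.ncy
          hq := A.hq
          gen := A.gen
          genb := A.genb
          genc := A.genc
          qb := A.qb
          qc := A.qc
          dvb := fun p hp hv => Dv.supl (A.dvb p hp hv)
          dvc := A.dvc
          grb := A.grb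
          grc := A.grc }⟩
      · obtain ⟨A⟩ := ih s2 t (by omega) h1
        exact ⟨{
          P := A.P
          Fs := A.Fs
          q := A.q
          Nb := A.Nb
          Nc := A.Nc
          nbx := A.nbx
          nby := A.nby
          ncx := A.ncx
          ncy := A.ncy
          hq := A.hq
          gen := A.gen
          genb := A.genb
          genc := A.genc
          qb := A.qb
          qc := A.qc
          dvb := fun p hp hv => Dv.supr (A.dvb p hp hv)
          dvc := A.dvc
          grb := A.grb
          grc := A.grc }⟩
    | var x =>
      refine base _ t (fun i => decide (i = x)) (by simp [bev]) ?_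
      by_contra hcon
      rw [Bool.not_eq_false] at hcon
      exact hst (high v x t hcon)
    | inf s1 s2 =>
      cases t with
      | var x =>
        refine base _ _ (fun i => decide (i ≠ x)) ?_ (by simp [bev])
        by_contra hcon
        rw [Bool.not_eq_true] at hcon
        exact hst (low v x _ hcon)
      | inf t1 t2 =>
        have h1 : ¬ (LTerm.inf s1 s2).eval v ≤ t1.eval v ∨
            ¬ (LTerm.inf s1 s2).eval v ≤ t2.eval v := by
          by_contra hcon
          push Not at hcon
          exact hst (le_inf hcon.1 hcon.2)
        rcases h1 with h1 | h1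
        · obtain ⟨A⟩ := ih (.inf s1 s2) t1 (by simp only [sz] at hn ⊢; omega) h1
          exact ⟨{
            P := A.P
            Fs := A.Fs
            q := A.q
            Nb := A.Nb
            Nc := A.Nc
            nbx := A.nbx
            nby := A.nby
            ncx := A.ncx
            ncy := A.ncy
            hq := A.hq
            gen := A.gen
            genb := A.genb
            genc := A.genc
            qb := A.qb
            qc := A.qc
            dvb := A.dvb
            dvc := fun p hp hv => Dv.infl (A.dvc p hp hv)
            grb := A.grb
            grc := A.grc }⟩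
        · obtain ⟨A⟩ := ih (.inf s1 s2) t2 (by simp only [sz] at hn ⊢; omega) h1
          exact ⟨{
            P := A.P
            Fs := A.Fs
            q := A.q
            Nb := A.Nb
            Nc := A.Nc
            nbx := A.nbx
            nby := A.nby
            ncx := A.ncx
            ncy := A.ncy
            hq := A.hq
            gen := A.gen
            genb := A.genb
            genc := A.genc
            qb := A.qb
            qc := A.qc
            dvb := A.dvb
            dvc := fun p hp hv => Dv.infr (A.dvc p hp hv)
            grb := A.grb
            grc := A.grc }⟩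
      | sup t1 t2 =>
        simp only [sz] at hn
        obtain ⟨A⟩ := ih (.inf s1 s2) t1 (by simp only [sz]; omega)
          (fun h => hst (h.trans le_sup_left))
        obtain ⟨B⟩ := ih (.inf s1 s2) t2 (by simp only [sz]; omega)
          (fun h => hst (h.trans le_sup_right))
        obtain ⟨C⟩ := ih s1 (.sup t1 t2) (by simp only [sz]; omega)
          (fun h => hst ((inf_le_left : _ ≤ s1.eval v).trans h))
        obtain ⟨D⟩ := ih s2 (.sup t1 t2) (by simp only [sz]; omega)
          (fun h => hst ((inf_le_right : _ ≤ s2.eval v).trans h))
        exact hstep s1 s2 t1 t2 A B C D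

end IndAux

/-- PI-IND -/
theorem ind : S_ind := fun hstep L _ v s t hst =>
  IndAux.main hstep L v (IndAux.sz s + IndAux.sz t) s t le_rfl hst

end R761.PosId
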