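import Pool.Agent.R761.PosId.Defs

/-! PI-MERGE: certificates survive when points below all planes are added. -/

namespace R761.PosId

open R761.BipLat

theorem merge : S_merge := by
  intro P P' Fs Fs' hP hF hneg β w q h
  induction h with
  | leaf w hq hF' hv hall hb =>
    refine Dv.leaf w (hP hq) (hF hF') hv ?_ hb
    intro p hp hpq
    by_cases hpP : p ∈ P
    · exact hall p hpP hpq
    · exact hneg p hp hpP _ hF'
  | supl _ ih => exact Dv.supl ih
  | supr _ ih => exact Dv.supr ih
  | infl _ ih => exact Dv.infl ih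
  | infr _ ih => exact Dv.infr ih
  | up hq hF' hv hall hs hs' hb ht ht' hb' ihall ihs ihs' iht iht' =>
    refine Dv.up (hP hq) (hF hF') hv ?_ ihs ihs' hb iht iht' hb'
    intro p hp hpq hvp
    by_cases hpP : p ∈ P
    · exact ihall p hpP hpq hvp
    · exact absurd hvp (not_lt.mpr (hneg p hp hpP _ hF').le)
  | dn hq hF' hv hall hs hs' hb ht ht' hb' ihall ihs ihs' iht iht' =>
    refine Dv.dn (hP hq) (hF hF') hv ?_ ihs ihs' hb iht iht' hb'
    intro p hp hpq hvp
    by_cases hpP : p ∈ P
    · exact ihall p hpP hpq hvp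
    · exact absurd hvp (not_lt.mpr (hneg p hp hpP _ hF').le)

end R761.PosId
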