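import Pool.Agent.R761.PosId.Defs

/-! NORM: normalisation of one half by an affine map. -/

set_option autoImplicit false

namespace R761.PosId

open R761.BipLat

namespace NormAux

/-- the map of the points -/
noncomputable def ph (N : Pl) (t11 t12 t21 t22 : ℝ) (p : Pt) : Pt :=
  ⟨(t22 * p.x - t21 * p.y) / (t11 * t22 - t12 * t21),
    (-t12 * p.x + t11 * p.y) / (t11 * t22 - t12 * t21), val N p, p.lab⟩

/-- the map of the planes -/
noncomputable def ps (N : Pl) (t11 t12 t21 t22 : ℝ) (F : Pl) : Pl :=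
  ⟨t11 * (F.a - N.a) + t12 * (F.b - N.b), t21 * (F.a - N.a) + t22 * (F.b - N.b), F.c - N.c⟩

lemma val_eq (N : Pl) {t11 t12 t21 t22 : ℝ} (hd : t11 * t22 - t12 * t21 ≠ 0) (F : Pl) (p : Pt) :
    val (ps N t11 t12 t21 t22 F) (ph N t11 t12 t21 t22 p) = val F p := by
  unfold ps ph val
  simp only
  field_simp
  ring

lemma adm (N : Pl) {t11 t12 t21 t22 : ℝ} (hd : t11 * t22 - t12 * t21 ≠ 0) :
    Adm (ph N t11 t12 t21 t22) (ps N t11 t12 t21 t22) where
  inj := by
    intro p p' h
    have hx : (t22 * p.x - t21 * p.y) / (t11 * t22 - t12 * t21) =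
        (t22 * p'.x - t21 * p'.y) / (t11 * t22 - t12 * t21) := congrArg Pt.x h
    have hy : (-t12 * p.x + t11 * p.y) / (t11 * t22 - t12 * t21) =
        (-t12 * p'.x + t11 * p'.y) / (t11 * t22 - t12 * t21) := congrArg Pt.y h
    have hh : val N p = val N p' := congrArg Pt.h h
    have hl : p.lab = p'.lab := by
      have h3 := congrArg Pt.lab h
      exact h3
    have hx' := (div_left_inj' hd).1 hx
    have hy' := (div_left_inj' hd).1 hy
    have ex : p.x = p'.x := by
      have : (t11 * t22 - t12 * t21) * p.x = (t11 * t22 - t12 * t21) * p'.x := by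
        linear_combination t11 * hx' + t21 * hy'
      exact mul_left_cancel₀ hd this
    have ey : p.y = p'.y := by
      have : (t11 * t22 - t12 * t21) * p.y = (t11 * t22 - t12 * t21) * p'.y := by
        linear_combination t12 * hx' + t22 * hy'
      exact mul_left_cancel₀ hd this
    have eh : p.h = p'.h := by
      unfold val at hh
      rw [ex, ey] at hh
      linarith
    cases p
    cases p'
    simp only at ex ey eh hl
    subst ex ey eh hl
    rfl
  lab := fun _ => rfl
  btw := by
    rintro q y z ⟨l, h0, h1, hx, hy, hh⟩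
    refine ⟨l, h0, h1, ?_, ?_, ?_⟩
    · unfold ph
      simp only
      rw [hx, hy]
      field_simp
      ring
    · unfold ph
      simp only
      rw [hx, hy]
      field_simp
      ring
    · unfold ph val
      simp only
      rw [hx, hy, hh]
      ring
  sc := ⟨1, one_pos, fun F p => by rw [one_mul]; exact val_eq N hd F p⟩

lemma ev_lin {c : ℝ} (hc : 0 < c) (r : ℝ) : ∀ᶠ K : ℝ in Filter.atTop, 0 < K * c + r := by
  filter_upwards [Filter.eventually_gt_atTop (-r / c)] with K hK
  have := (div_lt_iff₀ hc).1 hK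
  linarith

end NormAux

open NormAux in
/-- NORM -/
theorem norm (ht : S_trans) : S_norm := by
  intro P Fs q N nx ny β w w' hq hgen hgN hqN hdv hdq hgr αx αy u1 u2 v1 v2 w1 w2 hu hv hw
  have hfin : {F : Pl | F ∈ Fs}.Finite := List.finite_toSet Fs
  have hone : ∀ (a b : ℝ), 0 < αx * a + αy * b → ∀ᶠ K : ℝ in Filter.atTop,
      ∀ F ∈ {F : Pl | F ∈ Fs}, 0 < K * (((F.a - N.a) * nx + (F.b - N.b) * ny) *
        (αx * a + αy * b)) + ((F.a - N.a) * a + (F.b - N.b) * b) := by
    intro a b hab
    rw [Filter.eventually_all_finite hfin]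
    intro F hF
    exact ev_lin (mul_pos (hgr F hF) hab) _
  obtain ⟨K, hKu, hKv, hKw, hKd⟩ := ((hone u1 u2 hu).and ((hone v1 v2 hv).and
    ((hone w1 w2 hw).and (Filter.eventually_gt_atTop (-1 / (αx * nx + αy * ny)))))).exists
  have hd : (1 + K * αx * nx) * (1 + K * αy * ny) - (K * αx * ny) * (K * αy * nx) ≠ 0 := by
    intro h
    have h1 : 1 + K * (αx * nx + αy * ny) = 0 := by linear_combination h
    have he : αx * nx + αy * ny ≠ 0 := by
      intro h2
      rw [h2] at h1
      norm_num at h1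
    have h3 : K = -1 / (αx * nx + αy * ny) := by
      rw [eq_div_iff he]
      linarith
    linarith
  set φ := ph N (1 + K * αx * nx) (K * αx * ny) (K * αy * nx) (1 + K * αy * ny) with hφ
  set ψ := ps N (1 + K * αx * nx) (K * αx * ny) (K * αy * nx) (1 + K * αy * ny) with hψ
  have hadm : Adm φ ψ := adm N hd
  have hval : ∀ F p, val (ψ F) (φ p) = val F p := fun F p => val_eq N hd F p
  have hh : ∀ p, (φ p).h = val N p := fun p => rfl
  refine ⟨P.map φ, Fs.map ψ, φ q, ⟨?_, ?_, ?_, ?_, ?_, ?_⟩, ?_⟩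
  · exact List.mem_map_of_mem hq
  · intro F hF p hp
    obtain ⟨F', hF', rfl⟩ := List.mem_map.1 hF
    obtain ⟨p', hp', rfl⟩ := List.mem_map.1 hp
    rw [hval]
    exact hgen F' hF' p' hp'
  · intro p hp
    obtain ⟨p', hp', rfl⟩ := List.mem_map.1 hp
    rw [hh]
    exact hgN p' hp'
  · rw [hh]
    exact hqN
  · intro p hp h0
    obtain ⟨p', hp', rfl⟩ := List.mem_map.1 hp
    rw [hh] at h0
    exact ht φ ψ hadm P Fs β w p' (hdv p' hp' h0)
  · exact ht φ ψ hadm P Fs (!β) w' q hdq
  · intro F hF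
    obtain ⟨F', hF', rfl⟩ := List.mem_map.1 hF
    have e : ∀ a b : ℝ, (ψ F').a * a + (ψ F').b * b =
        K * (((F'.a - N.a) * nx + (F'.b - N.b) * ny) * (αx * a + αy * b)) +
          ((F'.a - N.a) * a + (F'.b - N.b) * b) := by
      intro a b
      rw [hψ]
      unfold ps
      simp only
      ring
    rw [e, e, e]
    exact ⟨hKu F' hF', hKv F' hF', hKw F' hF'⟩

end R761.PosId
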