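import Mathlib
import Pool.Agent.R928.PosId.Sem

/-! The semantic piece in every dimension `n + 4`. -/

namespace R761.PosId

open R761.BipLat Pool.Agent.H178R3 Pool.Agent.H178R3.CentralArrangement

namespace SemN

/-- a vector with four prescribed coordinates, all others zero -/
def v4 (n : ℕ) (a b c d : ℝ) : Fin (n + 4) → ℝ :=
  Fin.cons a (Fin.cons b (Fin.cons c (Fin.cons d (fun _ => 0))))

theorem dot_v4 (n : ℕ) (a b c d a' b' c' d' : ℝ) :
    dotL (v4 n a b c d) (v4 n a' b' c' d') = a * a' + b * b' + c * c' + d * d' := by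
  rw [dotL_apply, Fin.sum_univ_succ, Fin.sum_univ_succ, Fin.sum_univ_succ, Fin.sum_univ_succ]
  simp only [v4, Fin.cons_zero, Fin.cons_succ, mul_zero, Finset.sum_const_zero]
  ring

theorem v4_comb (n : ℕ) (l a b c a' b' c' : ℝ) :
    v4 n (l * a + (1 - l) * a') (l * b + (1 - l) * b') (l * c + (1 - l) * c') 1 =
      l • v4 n a b c 1 + (1 - l) • v4 n a' b' c' 1 := by
  funext i
  refine Fin.cases ?_ (fun i => ?_) i
  · simp only [v4, Fin.cons_zero, Pi.add_apply, Pi.smul_apply, smul_eq_mul]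
  refine Fin.cases ?_ (fun i => ?_) i
  · simp only [v4, Fin.cons_zero, Fin.cons_succ, Pi.add_apply, Pi.smul_apply, smul_eq_mul]
  refine Fin.cases ?_ (fun i => ?_) i
  · simp only [v4, Fin.cons_zero, Fin.cons_succ, Pi.add_apply, Pi.smul_apply, smul_eq_mul]
  refine Fin.cases ?_ (fun i => ?_) i
  · simp only [v4, Fin.cons_zero, Fin.cons_succ, Pi.add_apply, Pi.smul_apply, smul_eq_mul]
    ring
  · simp only [v4, Fin.cons_succ, Pi.add_apply, Pi.smul_apply, smul_eq_mul]
    ring

/-- The normal vector of a point. -/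
def pvec (n : ℕ) (p : Pt) : Fin (n + 4) → ℝ := v4 n p.x p.y p.h 1
/-- The base vector. -/
def bvec (n : ℕ) : Fin (n + 4) → ℝ := v4 n 0 0 0 1
/-- The vector of a plane. -/
def rvec (n : ℕ) (F : Pl) : Fin (n + 4) → ℝ := v4 n F.a F.b (-1) F.c

theorem dot_b (n : ℕ) (p : Pt) : 0 < dotL (pvec n p) (bvec n) := by
  rw [pvec, bvec, dot_v4]; norm_num

theorem dot_r (n : ℕ) (p : Pt) (F : Pl) : dotL (pvec n p) (rvec n F) = - val F p := by
  rw [pvec, rvec, dot_v4, val]; ring

theorem dotL_comb {d : ℕ} (u w r : Fin d → ℝ) (l m : ℝ) :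
    dotL (l • u + m • w) r = l * dotL u r + m * dotL w r := by
  simp only [dotL_apply, Pi.add_apply, Pi.smul_apply, smul_eq_mul, Finset.mul_sum]
  rw [← Finset.sum_add_distrib]
  exact Finset.sum_congr rfl fun i _ => by ring

theorem dot_btw (n : ℕ) {q y z : Pt} {r : Fin (n + 4) → ℝ} {l : ℝ}
    (h1 : q.x = l * y.x + (1 - l) * z.x)
    (h2 : q.y = l * y.y + (1 - l) * z.y) (h3 : q.h = l * y.h + (1 - l) * z.h) :
    dotL (pvec n q) r = l * dotL (pvec n y) r + (1 - l) * dotL (pvec n z) r := by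
  rw [← dotL_comb, pvec, h1, h2, h3, v4_comb]
  rfl

end SemN

open SemN SEM in
theorem semN (n : ℕ) (P : List Pt) (Fs : List Pl) (s t : LTerm) (q : Pt)
    (gen : ∀ F ∈ Fs, ∀ p ∈ P, val F p ≠ 0) (hs : Dv P Fs true s q) (ht : Dv P Fs false t q) :
    ∃ (A : CentralArrangement (n + 4)) (B : A.Region) (v : ℕ → DedekindCut (Pos A B)),
      ¬ s.eval v ≤ t.eval v := by
  let vec : Fin P.length → (Fin (n + 4) → ℝ) := fun i => SemN.pvec n (P.get i)
  have hb : ∀ i, 0 < dotL (vec i) (SemN.bvec n) := fun i => SemN.dot_b n _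
  let A := arr vec (SemN.bvec n) hb
  let B : A.Region := baseRegion hb
  let rep : Pos A B → (Fin (n + 4) → ℝ) :=
    fun R => (Region.nonempty (show A.Region from R)).choose
  have hrep : ∀ R : Pos A B, rep R ∈ (show A.Region from R).1 :=
    fun R => (Region.nonempty (show A.Region from R)).choose_spec
  let ct : Pos A B → Pt → Prop := fun R p => dotL (SemN.pvec n p) (rep R) < 0
  have hlist : ∀ φ : Pt → Prop, (∀ i : Fin P.length, φ (P.get i)) ↔ ∀ p ∈ P, φ p := by
    intro φ
    constructor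
    · intro h p hp
      obtain ⟨i, rfl⟩ := List.mem_iff_get.1 hp
      exact h i
    · intro h i
      exact h _ (List.get_mem P i)
  have hmem : ∀ (x : Fin (n + 4) → ℝ) (hx : x ∈ A.complement) (p : Pt), p ∈ P →
      (ct (posOf B x hx) p ↔ dotL (SemN.pvec n p) x < 0) := by
    intro x hx p hp
    obtain ⟨i, rfl⟩ := List.mem_iff_get.1 hp
    constructor
    · exact (arr_le_iff hb (R := posOf B x hx) (R' := posOf B x hx) (hrep _)
        (mem_posOf B x hx)).1 le_rfl i
    · exact (arr_le_iff hb (R := posOf B x hx) (R' := posOf B x hx) (mem_posOf B x hx)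
        (hrep _)).1 le_rfl i
  have hr : Rep P Fs ct := by
    refine ⟨fun R R' => ?_, fun R q y z h hy hz => ?_, fun R q y z h hy hz => ?_,
      fun F hF => ?_, fun F hF => ?_⟩
    · exact (arr_le_iff hb (hrep R) (hrep R')).trans
        (hlist fun p => dotL (SemN.pvec n p) (rep R) < 0 → dotL (SemN.pvec n p) (rep R') < 0)
    · obtain ⟨l, l0, l1, h1, h2, h3⟩ := h
      change dotL (SemN.pvec n q) (rep R) < 0
      rw [SemN.dot_btw n h1 h2 h3]
      have hy' : dotL (SemN.pvec n y) (rep R) < 0 := hy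
      have hz' : dotL (SemN.pvec n z) (rep R) < 0 := hz
      have e1 := mul_neg_of_pos_of_neg l0 hy'
      have e2 := mul_neg_of_pos_of_neg (sub_pos.2 l1) hz'
      linarith
    · obtain ⟨l, l0, l1, h1, h2, h3⟩ := h
      change ¬ dotL (SemN.pvec n q) (rep R) < 0
      rw [SemN.dot_btw n h1 h2 h3]
      have hy' : 0 ≤ dotL (SemN.pvec n y) (rep R) := not_lt.1 hy
      have hz' : 0 ≤ dotL (SemN.pvec n z) (rep R) := not_lt.1 hz
      have e1 := mul_nonneg l0.le hy'
      have e2 := mul_nonneg (sub_pos.2 l1).le hz'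
      linarith
    · have hx : SemN.rvec n F ∈ A.complement := by
        refine mem_arr_complement hb fun i => ?_
        change dotL (SemN.pvec n (P.get i)) (SemN.rvec n F) ≠ 0
        rw [SemN.dot_r]
        exact neg_ne_zero.2 (gen F hF _ (List.get_mem P i))
      refine ⟨posOf B (SemN.rvec n F) hx, fun p hp => ?_⟩
      rw [hmem _ hx p hp, SemN.dot_r]
      exact neg_lt_zero
    · have hx : -SemN.rvec n F ∈ A.complement := by
        refine mem_arr_complement hb fun i => ?_
        change dotL (SemN.pvec n (P.get i)) (-SemN.rvec n F) ≠ 0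
        rw [map_neg, SemN.dot_r, neg_neg]
        exact gen F hF _ (List.get_mem P i)
      refine ⟨posOf B (-SemN.rvec n F) hx, fun p hp => ?_⟩
      rw [hmem _ hx p hp, map_neg, SemN.dot_r, neg_neg]
  exact ⟨A, B, asg P Fs ct, fails hr gen hs ht⟩

end R761.PosId
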