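import Mathlib
import Pool.Agent.R761.PosId.Half

/-! The recursion step. -/

namespace R761.PosId

open Filter Topology R761.BipLat

theorem bev_false (w : LTerm) : bev (fun _ => false) w = false := by
  induction w with
  | var i => rfl
  | sup s t hs ht => simp [bev, hs, ht]
  | inf s t hs ht => simp [bev, hs, ht]

theorem bev_true (w : LTerm) : bev (fun _ => true) w = true := by
  induction w with
  | var i => rfl
  | sup s t hs ht => simp [bev, hs, ht]
  | inf s t hs ht => simp [bev, hs, ht]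

/-- gradient conditions relative to the other port plane -/
theorem ev_cross (F : Pl) :
    ∀ᶠ e in 𝓝[>] (0 : ℝ), 0 < (2 + e ^ 2 * F.a) * 2 + e ^ 2 * F.b * 1 := by
  refine ev_pos _ (fun e => (2 + e ^ 2 * F.a) * 2 + e ^ 2 * F.b * 1) 0 (fun e => ?_)
    (by fun_prop) (by simp)
  simp

theorem ev_cross' : ∀ᶠ e in 𝓝[>] (0 : ℝ), 0 < (2 - 2 * e ^ 9) * 2 + e ^ 9 * 1 := by
  refine ev_pos _ (fun e => (2 - 2 * e ^ 9) * 2 + e ^ 9 * 1) 0 (fun e => ?_)
    (by fun_prop) (by simp)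
  simp

/-- gradient of the planes of a half relative to both port planes (`x`-part first) -/
theorem grads {e : ℝ} (he : 0 < e) {F1 F2 : List Pl} (g1 : ∀ F ∈ F1, Gr1 F)
    (g2 : ∀ F ∈ F2, Gr2 F)
    (x1 : ∀ F ∈ F1, 0 < (2 + e ^ 2 * F.a) * 2 + e ^ 2 * F.b * 1)
    (x2 : ∀ F ∈ F2, 0 < (2 + e ^ 2 * F.a) * 2 + e ^ 2 * F.b * 1)
    (x3 : 0 < (2 - 2 * e ^ 9) * 2 + e ^ 9 * 1) {F : Pl} (hF : F ∈ GG e F1 F2) :
    0 < (F.a - 1) * (-2) + (F.b - 0) * 1 ∧ 0 < (F.a - (-1)) * 2 + (F.b - 0) * 1 := by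
  have e2 : 0 < e ^ 2 := pow_pos he 2
  have e9 : 0 < e ^ 9 := pow_pos he 9
  have hF' : (∃ F' ∈ F1, f1 e F' = F) ∨ (∃ F' ∈ F2, f2 e F' = F) ∨ F = bq e ∨ F = v1 e ∨
      F = v2 e := by
    simpa [GG, or_assoc] using hF
  rcases hF' with ⟨F', h, rfl⟩ | ⟨F', h, rfl⟩ | h | h | h
  · have h1 := mul_pos e2 (g1 F' h).2.2
    have h2 := x1 F' h
    simp only [f1, pF]
    constructor <;> nlinarith
  · have h1 := mul_pos e2 (g2 F' h).2.2
    have h2 := x2 F' h
    simp only [f2, pF]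
    constructor <;> nlinarith
  · rw [h]; simp only [bq]
    constructor <;> nlinarith
  · rw [h]; simp only [v1, vm]
    constructor <;> norm_num
  · rw [h]; simp only [v2, vm]
    constructor <;> norm_num

theorem step (htr : S_trans) (hme : S_merge) (hno : S_norm) : S_step := by
  intro c1 c2 t1 t2 X1 X2 Y1 Y2
  obtain ⟨P1, F1, r1, h1, g1⟩ := hno X1.P X1.Fs X1.q X1.Nb X1.nbx X1.nby true (.inf c1 c2) t1
    X1.hq X1.gen X1.genb X1.qb X1.dvb (X1.dvc X1.q X1.hq X1.qc) X1.grb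
    (2 / 5) 1 2 (3 / 10) 3 (-1) (-2) 1 (by norm_num) (by norm_num) (by norm_num)
  obtain ⟨P2, F2, r2, h2, g2⟩ := hno X2.P X2.Fs X2.q X2.Nb X2.nbx X2.nby true (.inf c1 c2) t2
    X2.hq X2.gen X2.genb X2.qb X2.dvb (X2.dvc X2.q X2.hq X2.qc) X2.grb
    (-1) (-1) (-2) (-3 / 10) 1 (-13 / 10) (-2) 1 (by norm_num) (by norm_num) (by norm_num)
  obtain ⟨Q1, G1, s1, k1, m1⟩ := hno Y1.P Y1.Fs Y1.q Y1.Nc Y1.ncx Y1.ncy false (.sup t1 t2) c1
    Y1.hq Y1.gen Y1.genc Y1.qc Y1.dvc (Y1.dvb Y1.q Y1.hq Y1.qb) Y1.grc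
    (2 / 5) 1 2 (3 / 10) 3 (-1) (-2) 1 (by norm_num) (by norm_num) (by norm_num)
  obtain ⟨Q2, G2, s2, k2, m2⟩ := hno Y2.P Y2.Fs Y2.q Y2.Nc Y2.ncx Y2.ncy false (.sup t1 t2) c2
    Y2.hq Y2.gen Y2.genc Y2.qc Y2.dvc (Y2.dvb Y2.q Y2.hq Y2.qb) Y2.grc
    (-1) (-1) (-2) (-3 / 10) 1 (-13 / 10) (-2) 1 (by norm_num) (by norm_num) (by norm_num)
  have hev := (good (fun _ => false) (fun _ => true) P1 F1 r1 P2 F2 r2 Q1 Q2 s1 s2 g1 g2
    h1.qh h2.qh).and ((good (fun _ => true) (fun _ => false) Q1 G1 s1 Q2 G2 s2 P1 P2 r1 r2 m1 m2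
    k1.qh k2.qh).and ((evl F1 fun F _ => ev_cross F).and ((evl F2 fun F _ => ev_cross F).and
    ((evl G1 fun F _ => ev_cross F).and ((evl G2 fun F _ => ev_cross F).and
    (ev_cross'.and self_mem_nhdsWithin))))))
  obtain ⟨e, gX, gY, x1, x2, y1, y2, x3, he⟩ := hev.exists
  replace he : 0 < e := he
  -- the configuration
  set UX := UU e (fun _ => false) P1 r1 P2 r2 with hUX
  set UY := UU e (fun _ => true) Q1 s1 Q2 s2 with hUY
  set P' : List Pt := UX ++ [q0 e] ++ UY.map mp with hP'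
  set Fs' : List Pl := GG e F1 F2 ++ (GG e G1 G2).map mF with hFs'
  have memP : ∀ p, p ∈ P' ↔ PP e (fun _ => false) (fun _ => true) P1 r1 P2 r2 Q1 s1 Q2 s2 p := by
    intro p
    simp only [hP', PP, List.mem_append, List.mem_singleton, List.mem_map, or_assoc]
    constructor
    · rintro (h | h | ⟨a, h, rfl⟩)
      · exact Or.inl h
      · exact Or.inr (Or.inl h)
      · exact Or.inr (Or.inr ⟨a, h, rfl⟩)
    · rintro (h | h | ⟨a, h, rfl⟩)
      · exact Or.inl h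
      · exact Or.inr (Or.inl h)
      · exact Or.inr (Or.inr ⟨a, h, rfl⟩)
  have ppX : ∀ p ∈ P', PP e (fun _ => false) (fun _ => true) P1 r1 P2 r2 Q1 s1 Q2 s2 p :=
    fun p hp => (memP p).1 hp
  have ppY : ∀ p ∈ P', PP e (fun _ => true) (fun _ => false) Q1 s1 Q2 s2 P1 r1 P2 r2 (mp p) :=
    fun p hp => PP_symm (ppX p hp)
  have memX : ∀ p ∈ UX, p ∈ P' := fun p hp => (memP p).2 (Or.inl hp)
  have memY : ∀ p ∈ UY, mp p ∈ P' := fun p hp => (memP _).2 (Or.inr (Or.inr ⟨p, hp, rfl⟩))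
  have memq : q0 e ∈ P' := (memP _).2 (Or.inr (Or.inl rfl))
  have mFX : ∀ F ∈ GG e F1 F2, F ∈ Fs' := fun F hF => by simp [hFs', hF]
  have mFY : ∀ F ∈ GG e G1 G2, mF F ∈ Fs' := fun F hF => by
    simp only [hFs', List.mem_append, List.mem_map]
    exact Or.inr ⟨F, hF, rfl⟩
  have bqG : ∀ A B : List Pl, bq e ∈ GG e A B := fun A B => by simp [GG]
  have v1G : ∀ A B : List Pl, v1 e ∈ GG e A B := fun A B => by simp [GG]
  have v2G : ∀ A B : List Pl, v2 e ∈ GG e A B := fun A B => by simp [GG]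
  have f1G : ∀ A B : List Pl, ∀ F ∈ A, f1 e F ∈ GG e A B := fun A B F hF => by
    simp only [GG, List.mem_append, List.mem_map]
    exact Or.inl (Or.inl ⟨F, hF, rfl⟩)
  have f2G : ∀ A B : List Pl, ∀ F ∈ B, f2 e F ∈ GG e A B := fun A B F hF => by
    simp only [GG, List.mem_append, List.mem_map]
    exact Or.inl (Or.inr ⟨F, hF, rfl⟩)
  -- transported certificates
  have TX1 : ∀ (β : Bool) (w : LTerm) (p : Pt), Dv P1 F1 β w p → Dv P' Fs' β w (p1 e p) := by
    intro β w p hd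
    refine hme (P1.map (p1 e)) P' (F1.map (f1 e)) Fs' ?_ ?_ ?_ β w _
      (htr _ _ (adm_pl e (-3) 1 he) P1 F1 β w p hd)
    · intro a ha
      obtain ⟨a', ha', rfl⟩ := List.mem_map.1 ha
      exact memX _ (mem_UU.2 (Or.inl ⟨a', ha', rfl⟩))
    · intro F hF
      obtain ⟨F', hF', rfl⟩ := List.mem_map.1 hF
      exact mFX _ (f1G _ _ _ hF')
    · intro a ha hna F hF
      obtain ⟨F', hF', rfl⟩ := List.mem_map.1 hF
      rcases S1 gX hF' (ppX a ha) with h | h
      · exact absurd (List.mem_map.2 h) hna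
      · exact h
  have TX2 : ∀ (β : Bool) (w : LTerm) (p : Pt), Dv P2 F2 β w p → Dv P' Fs' β w (p2 e p) := by
    intro β w p hd
    refine hme (P2.map (p2 e)) P' (F2.map (f2 e)) Fs' ?_ ?_ ?_ β w _
      (htr _ _ (adm_pl e (-1) (13 / 10) he) P2 F2 β w p hd)
    · intro a ha
      obtain ⟨a', ha', rfl⟩ := List.mem_map.1 ha
      exact memX _ (mem_UU.2 (Or.inr (Or.inl ⟨a', ha', rfl⟩)))
    · intro F hF
      obtain ⟨F', hF', rfl⟩ := List.mem_map.1 hF
      exact mFX _ (f2G _ _ _ hF')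
    · intro a ha hna F hF
      obtain ⟨F', hF', rfl⟩ := List.mem_map.1 hF
      rcases S2 gX hF' (ppX a ha) with h | h
      · exact absurd (List.mem_map.2 h) hna
      · exact h
  have TY1 : ∀ (β : Bool) (w : LTerm) (p : Pt), Dv Q1 G1 β w p →
      Dv P' Fs' β w (mp (p1 e p)) := by
    intro β w p hd
    refine hme (Q1.map (fun p => mp (p1 e p))) P' (G1.map (fun F => mF (f1 e F))) Fs' ?_ ?_ ?_ β w _
      (htr _ _ (adm_mp (adm_pl e (-3) 1 he)) Q1 G1 β w p hd)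
    · intro a ha
      obtain ⟨a', ha', rfl⟩ := List.mem_map.1 ha
      exact memY _ (mem_UU.2 (Or.inl ⟨a', ha', rfl⟩))
    · intro F hF
      obtain ⟨F', hF', rfl⟩ := List.mem_map.1 hF
      exact mFY _ (f1G _ _ _ hF')
    · intro a ha hna F hF
      obtain ⟨F', hF', rfl⟩ := List.mem_map.1 hF
      rw [val_mF']
      rcases S1 gY hF' (ppY a ha) with ⟨a', ha', h⟩ | h
      · exact absurd (List.mem_map.2 ⟨a', ha', by rw [h, mp_mp]⟩) hna
      · exact h
  have TY2 : ∀ (β : Bool) (w : LTerm) (p : Pt), Dv Q2 G2 β w p →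
      Dv P' Fs' β w (mp (p2 e p)) := by
    intro β w p hd
    refine hme (Q2.map (fun p => mp (p2 e p))) P' (G2.map (fun F => mF (f2 e F))) Fs' ?_ ?_ ?_ β w _
      (htr _ _ (adm_mp (adm_pl e (-1) (13 / 10) he)) Q2 G2 β w p hd)
    · intro a ha
      obtain ⟨a', ha', rfl⟩ := List.mem_map.1 ha
      exact memY _ (mem_UU.2 (Or.inr (Or.inl ⟨a', ha', rfl⟩)))
    · intro F hF
      obtain ⟨F', hF', rfl⟩ := List.mem_map.1 hF
      exact mFY _ (f2G _ _ _ hF')
    · intro a ha hna F hF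
      obtain ⟨F', hF', rfl⟩ := List.mem_map.1 hF
      rw [val_mF']
      rcases S2 gY hF' (ppY a ha) with ⟨a', ha', h⟩ | h
      · exact absurd (List.mem_map.2 ⟨a', ha', by rw [h, mp_mp]⟩) hna
      · exact h
  -- helper vertices
  have Z1 : ∀ w, Dv P' Fs' false w (zz e (fun _ => false) (p1 e r1)) := fun w =>
    Dv.leaf w (memX _ (mem_UU.2 (by simp))) (mFX _ (v1G _ _)) gX.v1z1
      (fun p hp hne => (Sv1 gX (ppX p hp)).resolve_left hne) (bev_false w)
  have Z2 : ∀ w, Dv P' Fs' false w (zz e (fun _ => false) (p2 e r2)) := fun w =>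
    Dv.leaf w (memX _ (mem_UU.2 (by simp))) (mFX _ (v2G _ _)) gX.v2z2
      (fun p hp hne => (Sv2 gX (ppX p hp)).resolve_left hne) (bev_false w)
  have W1 : ∀ w, Dv P' Fs' true w (mp (zz e (fun _ => true) (p1 e s1))) := fun w =>
    Dv.leaf w (memY _ (mem_UU.2 (by simp))) (mFY _ (v1G _ _)) (by rw [val_mF]; exact gY.v1z1)
      (fun p hp hne => by
        rw [val_mF']
        refine (Sv1 gY (ppY p hp)).resolve_left fun h => hne ?_
        rw [← h, mp_mp]) (bev_true w)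
  have W2 : ∀ w, Dv P' Fs' true w (mp (zz e (fun _ => true) (p2 e s2))) := fun w =>
    Dv.leaf w (memY _ (mem_UU.2 (by simp))) (mFY _ (v2G _ _)) (by rw [val_mF]; exact gY.v2z2)
      (fun p hp hne => by
        rw [val_mF']
        refine (Sv2 gY (ppY p hp)).resolve_left fun h => hne ?_
        rw [← h, mp_mp]) (bev_true w)
  -- content above the planes
  have upC : ∀ p, ((∃ p' ∈ P1, 0 < p'.h ∧ p1 e p' = p) ∨ (∃ p' ∈ P2, 0 < p'.h ∧ p2 e p' = p) ∨
      p = q0 e ∨ p = mp (zz e (fun _ => true) (p1 e s1)) ∨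
      p = mp (zz e (fun _ => true) (p2 e s2))) → p ≠ q0 e → Dv P' Fs' true (.inf c1 c2) p := by
    rintro p (⟨p', h, hh, rfl⟩ | ⟨p', h, hh, rfl⟩ | h | h | h) hne
    · exact TX1 _ _ _ (h1.dv p' h hh)
    · exact TX2 _ _ _ (h2.dv p' h hh)
    · exact absurd h hne
    · rw [h]; exact W1 _
    · rw [h]; exact W2 _
  have dnC : ∀ p, ((∃ p' ∈ Q1, 0 < p'.h ∧ p1 e p' = mp p) ∨
      (∃ p' ∈ Q2, 0 < p'.h ∧ p2 e p' = mp p) ∨
      mp p = q0 e ∨ mp p = mp (zz e (fun _ => false) (p1 e r1)) ∨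
      mp p = mp (zz e (fun _ => false) (p2 e r2))) → p ≠ q0 e →
      Dv P' Fs' false (.sup t1 t2) p := by
    rintro p (⟨p', h, hh, h'⟩ | ⟨p', h, hh, h'⟩ | h | h | h) hne
    · have := TY1 _ _ _ (k1.dv p' h hh)
      rwa [h', mp_mp] at this
    · have := TY2 _ _ _ (k2.dv p' h hh)
      rwa [h', mp_mp] at this
    · exact absurd (by rw [← mp_mp p, h, mp_q0]) hne
    · have h' := congrArg mp h
      rw [mp_mp, mp_mp] at h'
      rw [h']; exact Z1 _
    · have h' := congrArg mp h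
      rw [mp_mp, mp_mp] at h'
      rw [h']; exact Z2 _
  have qU : Dv P' Fs' true (.inf c1 c2) (q0 e) := by
    refine Dv.up (F := bq e) memq (mFX _ (bqG _ _)) gX.bq' ?_ (TY1 _ _ _ k1.dq) (W1 c1)
      (by have := btw_mp (btw_zz e he (fun _ => true) (p1 e s1)); rwa [mp_q0] at this)
      (TY2 _ _ _ k2.dq) (W2 c2)
      (by have := btw_mp (btw_zz e he (fun _ => true) (p2 e s2)); rwa [mp_q0] at this)
    intro p hp hne hv
    rcases Sbq gX (ppX p hp) h1.genh h2.genh with h | h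
    · exact upC p h.2 hne
    · exact absurd hv (by linarith)
  have qD : Dv P' Fs' false (.sup t1 t2) (q0 e) := by
    refine Dv.dn (F := mF (bq e)) memq (mFY _ (bqG _ _)) (by rw [val_mF', mp_q0]; exact gY.bq') ?_
      (TX1 _ _ _ h1.dq) (Z1 t1) (btw_zz e he _ _) (TX2 _ _ _ h2.dq) (Z2 t2) (btw_zz e he _ _)
    intro p hp hne hv
    rw [val_mF'] at hv
    rcases Sbq gY (ppY p hp) k1.genh k2.genh with h | h
    · exact dnC p h.2 hne
    · exact absurd hv (by linarith)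
  refine ⟨{ P := P', Fs := Fs', q := q0 e, Nb := Nb0, Nc := mF Nb0, nbx := -2, nby := 1,
            ncx := 2, ncy := 1, hq := memq, gen := ?_, genb := ?_, genc := ?_, qb := ?_, qc := ?_,
            dvb := ?_, dvc := ?_, grb := ?_, grc := ?_ }⟩
  · intro F hF p hp
    simp only [hFs', List.mem_append, List.mem_map] at hF
    rcases hF with hF | ⟨F', hF, rfl⟩
    · exact SG he gX (ppX p hp) h1.genh h2.genh h1.gen h2.gen hF
    · rw [val_mF']
      exact SG he gY (ppY p hp) k1.genh k2.genh k1.gen k2.gen hF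
  · intro p hp
    rcases SN he gX (ppX p hp) h1.genh h2.genh with h | h
    · exact h.1.ne'
    · exact h.ne
  · intro p hp
    rw [val_mF']
    rcases SN he gY (ppY p hp) k1.genh k2.genh with h | h
    · exact h.1.ne'
    · exact h.ne
  · rw [evN2]; exact pow_pos he 8
  · rw [val_mF', mp_q0, evN2]; exact pow_pos he 8
  · intro p hp hv
    by_cases hne : p = q0 e
    · rw [hne]; exact qU
    rcases SN he gX (ppX p hp) h1.genh h2.genh with h | h
    · exact upC p h.2 hne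
    · exact absurd hv (by linarith)
  · intro p hp hv
    rw [val_mF'] at hv
    by_cases hne : p = q0 e
    · rw [hne]; exact qD
    rcases SN he gY (ppY p hp) k1.genh k2.genh with h | h
    · exact dnC p h.2 hne
    · exact absurd hv (by linarith)
  · intro F hF
    simp only [hFs', List.mem_append, List.mem_map] at hF
    rcases hF with hF | ⟨F', hF, rfl⟩
    · exact (grads he g1 g2 x1 x2 x3 hF).1
    · have := (grads he m1 m2 y1 y2 x3 hF).2
      simp only [mF, Nb0]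
      linarith
  · intro F hF
    simp only [hFs', List.mem_append, List.mem_map] at hF
    rcases hF with hF | ⟨F', hF, rfl⟩
    · have := (grads he g1 g2 x1 x2 x3 hF).2
      simp only [mF, Nb0]
      linarith
    · have := (grads he m1 m2 y1 y2 x3 hF).1
      simp only [mF, Nb0]
      linarith

end R761.PosId
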