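import Mathlib
import Pool.Agent.R761.PosId.Defs
import Pool.Agent.H178R3.PosEmbed

/-! Statement of the semantic piece. -/

namespace R761.PosId

open R761.BipLat Pool.Agent.H178R3 Pool.Agent.H178R3.CentralArrangement

/-- SEM: a certified separation gives a failure in the completion of a poset of regions of a
central arrangement in `ℝ⁴`. -/
def S_sem : Prop := ∀ (P : List Pt) (Fs : List Pl) (s t : LTerm) (q : Pt),
  (∀ F ∈ Fs, ∀ p ∈ P, val F p ≠ 0) → Dv P Fs true s q → Dv P Fs false t q →
  ∃ (A : CentralArrangement 4) (B : A.Region) (v : ℕ → DedekindCut (Pos A B)),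
    ¬ s.eval v ≤ t.eval v

end R761.PosId
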