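import Pool.Agent.R761.PosId.Defs

/-! Transport of certificates under admissible maps. -/

namespace R761.PosId

open R761.BipLat

/-- TRANS -/
theorem trans : S_trans := by
  intro φ ψ hA P Fs β w q h
  obtain ⟨κ, hκ, hsc⟩ := hA.sc
  have hpos : ∀ F p, 0 < val (ψ F) (φ p) ↔ 0 < val F p := by
    intro F p
    rw [hsc]
    exact mul_pos_iff_of_pos_left hκ
  have hneg : ∀ F p, val F p < 0 → val (ψ F) (φ p) < 0 := by
    intro F p hp
    rw [hsc]
    exact mul_neg_of_pos_of_neg hκ hp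
  induction h with
  | @leaf q F β w hq hF hv hn hb =>
    refine Dv.leaf (F := ψ F) w (List.mem_map_of_mem hq) (List.mem_map_of_mem hF)
      ((hpos F q).mpr hv) ?_ (by rw [hA.lab]; exact hb)
    intro p hp hne
    obtain ⟨p0, hp0, rfl⟩ := List.mem_map.mp hp
    exact hneg F p0 (hn p0 hp0 fun h => hne (by rw [h]))
  | supl _ ih => exact Dv.supl ih
  | supr _ ih => exact Dv.supr ih
  | infl _ ih => exact Dv.infl ih
  | infr _ ih => exact Dv.infr ih
  | @up q y z y' z' F s t hq hF hv _ _ _ hb _ _ hb' ih1 ih2 ih3 ih4 ih5 =>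
    refine Dv.up (F := ψ F) (List.mem_map_of_mem hq) (List.mem_map_of_mem hF)
      ((hpos F q).mpr hv) ?_ ih2 ih3 (hA.btw _ _ _ hb) ih4 ih5 (hA.btw _ _ _ hb')
    intro p hp hne hvp
    obtain ⟨p0, hp0, rfl⟩ := List.mem_map.mp hp
    exact ih1 p0 hp0 (fun h => hne (by rw [h])) ((hpos F p0).mp hvp)
  | @dn q y z y' z' F s t hq hF hv _ _ _ hb _ _ hb' ih1 ih2 ih3 ih4 ih5 =>
    refine Dv.dn (F := ψ F) (List.mem_map_of_mem hq) (List.mem_map_of_mem hF)
      ((hpos F q).mpr hv) ?_ ih2 ih3 (hA.btw _ _ _ hb) ih4 ih5 (hA.btw _ _ _ hb')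
    intro p hp hne hvp
    obtain ⟨p0, hp0, rfl⟩ := List.mem_map.mp hp
    exact ih1 p0 hp0 (fun h => hne (by rw [h])) ((hpos F p0).mp hvp)

end R761.PosId
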